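import Pool.Agent.Lib.MP_6547d0_mp.R.Two

/-! Conserved quantities at a critical potential and the conclusion that it is constant. -/

set_option autoImplicit false

namespace Pool.Agent.Lib.MP_6547d0_mp.G

open Set Filter Topology Real MeasureTheory intervalIntegral

theorem rloc {L : ℝ} {r G : ℝ → ℝ} (cG : ContinuousOn G (Icc 0 L))
    (hk : ∀ s t, 0 ≤ s → s ≤ t → t ≤ L → (∀ x ∈ Icc s t, 0 < G x) → r s = r t) {x : ℝ}
    (hx : x ∈ Icc 0 L) (h : 0 < G x) : ∀ᶠ z in 𝓝[Icc 0 L] x, r z = r x := by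
  obtain ⟨ε, ε0, hε⟩ := Metric.mem_nhdsWithin_iff.1 ((cG x hx).tendsto.eventually_const_lt h)
  refine Metric.mem_nhdsWithin_iff.2 ⟨ε, ε0, fun z hz => ?_⟩
  rw [Real.ball_eq_Ioo] at hε hz
  rcases le_total z x with g | g
  · exact hk z x hz.2.1 g hx.2 fun t ht => hε ⟨⟨hz.1.1.trans_le ht.1, by linarith [ht.2]⟩,
      hz.2.1.trans ht.1, ht.2.trans hx.2⟩
  · exact (hk x z hx.1 g hz.2.2 fun t ht => hε ⟨⟨by linarith [ht.1], ht.2.trans_lt hz.1.2⟩,
      hx.1.trans ht.1, ht.2.trans hz.2.2⟩).symm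

theorem Two.zt {L M a b c z A B : ℝ} {V r u u' y y' F E v v' D G : ℝ → ℝ}
    (h : Two L a b z V u u' y y' F E) (rb : ∀ x, |r x| ≤ M) (r0 : r 0 = -M) (rL : r L = M)
    (hd : ∀ x ∈ Ioo 0 L, HasDerivWithinAt V (r x) (Ioi x) x ∧ ContinuousWithinAt r (Ioi x) x)
    (hv : Sol (fun x => V x - c) v v' 0 L) (v0 : v 0 = 0) (vL : v L = 0)
    (hD : ∀ x ∈ Icc 0 L, HasDerivAt D (A * y x ^ 2 - B * v x ^ 2 - (A - B) * u x ^ 2) x)
    (hG : ∀ x ∈ Icc 0 L, HasDerivAt G (D x) x) (D0 : D 0 = 0) (DL : D L = 0)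
    (Gp : ∀ x ∈ Icc 0 L, 0 ≤ G x)
    (hk : ∀ s t, 0 ≤ s → s ≤ t → t ≤ L → (∀ x ∈ Icc s t, 0 < G x) → r s = r t) :
    2 * ((A - B) * (c - a) - A * (c - b)) / L
      ≤ A * y' L ^ 2 - B * v' L ^ 2 - (A - B) * u' L ^ 2 ∧
    2 * ((A - B) * (c - a) - A * (c - b)) / L
      ≤ A * y' 0 ^ 2 - B * v' 0 ^ 2 - (A - B) * u' 0 ^ 2 ∧
    (G 0 = 0 → G L = 0 → ∀ x ∈ Icc 0 L,
      2 * (A * (y x * y' x) - B * (v x * v' x) - (A - B) * (u x * u' x)) - 4 * (V x - c) * D x =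
        4 * (((A - B) * (c - a) - A * (c - b)) * (x / L - F x) + A * (c - b) * (E x - F x))
          - 6 * (r x * G x)) := by
  have hL := h.hL
  have hV := h.cV
  have hu := h.hu
  have hy := h.hy
  have hd1 := fun x hx => (hd x hx).1
  have both : ∀ g g' : ℝ → ℝ, (∀ x ∈ Icc 0 L, HasDerivAt g (g' x) x) →
      (∀ x ∈ Icc 0 L, G x = 0 → g x = 0) → ContinuousOn (fun z => r z * g z) (Icc 0 L) ∧
      ∀ x ∈ Ioo 0 L, HasDerivWithinAt (fun z => r z * g z) (r x * g' x) (Ioi x) x :=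
    fun g g' h1 h2 => by
      have k : ∀ x ∈ Icc 0 L, 0 < G x →
          HasDerivWithinAt (fun z => r z * g z) (r x * g' x) (Icc 0 L) x := fun x hx p =>
        ((h1 x hx).const_mul (r x)).hasDerivWithinAt.congr_of_eventuallyEq (by
          filter_upwards [rloc (dcont hG) hk hx p] with z hz using by rw [hz]) rfl
      refine ⟨fun x hx => ?_, fun x hx => ?_⟩
      · rcases (Gp x hx).eq_or_lt with p | p
        · exact prodc rb (dcont h1 x hx) (h2 x hx p.symm)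
        · exact (k x hx p).continuousWithinAt
      · have m := Ioo_subset_Icc_self hx
        rcases (Gp x m).eq_or_lt with p | p
        · exact prodd (hd x hx).2 (h1 x m) (h2 x m p.symm)
        · exact ((k x m p).hasDerivAt (Icc_mem_nhds hx.1 hx.2)).hasDerivWithinAt
  obtain ⟨c1, d1⟩ := both D _ hD (dz hG D0 DL Gp)
  obtain ⟨c2, d2⟩ := both G _ hG fun _ _ p => p
  have hZ := rconst (f := fun x => A * (y' x ^ 2 + (b - V x) * y x ^ 2)
      - B * (v' x ^ 2 + (c - V x) * v x ^ 2) - (A - B) * (u' x ^ 2 + (a - V x) * u x ^ 2)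
      + r x * D x)
    ((((continuousOn_const.mul (cont_en hy hV)).sub (continuousOn_const.mul (cont_en hv hV))).sub
      (continuousOn_const.mul (cont_en hu hV))).add c1) fun x hx =>
    (((((der_en hy hx (hd1 x hx)).const_mul A).fun_sub
      ((der_en hv hx (hd1 x hx)).const_mul B)).fun_sub
      ((der_en hu hx (hd1 x hx)).const_mul (A - B))).fun_add (d1 x hx)).congr_deriv (by ring)
  obtain ⟨Z, eZ⟩ : ∃ Z, ∀ x ∈ Icc 0 L, A * (y' x ^ 2 + (b - V x) * y x ^ 2)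
      - B * (v' x ^ 2 + (c - V x) * v x ^ 2) - (A - B) * (u' x ^ 2 + (a - V x) * u x ^ 2)
      + r x * D x = Z := ⟨_, hZ⟩
  have hT := rconst (f := fun x => 2 * (A * (y x * y' x) - B * (v x * v' x)
      - (A - B) * (u x * u' x)) - 4 * (V x - c) * D x + 6 * (r x * G x) - 2 * Z * x
      - 4 * (A * (c - b)) * E x + 4 * ((A - B) * (c - a)) * F x)
    ((((((continuousOn_const.mul (((continuousOn_const.mul (hy.cont.mul hy.cont')).sub
      (continuousOn_const.mul (hv.cont.mul hv.cont'))).sub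
      (continuousOn_const.mul (hu.cont.mul hu.cont')))).sub
      ((continuousOn_const.mul (hV.sub continuousOn_const)).mul (dcont hD))).add
      (continuousOn_const.mul c2)).sub (by fun_prop)).sub
      (continuousOn_const.mul (dcont h.hE))).add (continuousOn_const.mul (dcont h.hF)))
    fun x hx => by
      have m := Ioo_subset_Icc_self hx
      refine (((((((((((hy x m).1.fun_mul (hy x m).2).const_mul A).fun_sub
        (((hv x m).1.fun_mul (hv x m).2).const_mul B)).fun_sub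
        (((hu x m).1.fun_mul (hu x m).2).const_mul (A - B))).const_mul 2).hasDerivWithinAt.fun_sub
        ((((hd1 x hx).sub_const c).const_mul 4).fun_mul (hD x m).hasDerivWithinAt)).fun_add
        ((d2 x hx).const_mul 6)).fun_sub
        ((hasDerivAt_id' x).const_mul (2 * Z)).hasDerivWithinAt).fun_sub
        ((h.hE x m).const_mul (4 * (A * (c - b)))).hasDerivWithinAt).fun_add
        ((h.hF x m).const_mul (4 * ((A - B) * (c - a)))).hasDerivWithinAt).congr_deriv ?_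
      rw [← eZ x m]
      ring
  have m0 : (0 : ℝ) ∈ Icc 0 L := ⟨le_rfl, hL.le⟩
  have mL : L ∈ Icc 0 L := ⟨hL.le, le_rfl⟩
  have M0 : 0 ≤ M := (abs_nonneg _).trans (rb 0)
  simp only [h.y0, h.u0, v0, D0, h.F0, h.E0, r0, zero_mul, mul_zero, sub_zero, add_zero] at hT
  have hTL := hT L mL
  simp only [h.yL, h.uL, vL, DL, h.FL, h.EL, rL, zero_mul, mul_zero, sub_zero] at hTL
  have z0 := eZ 0 m0
  have zL := eZ L mL
  simp only [h.y0, h.u0, v0, D0, h.yL, h.uL, vL, DL] at z0 zL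
  have k : 2 * ((A - B) * (c - a) - A * (c - b)) / L ≤ Z := by
    rw [div_le_iff₀ hL]
    linarith [mul_nonneg M0 (Gp 0 m0), mul_nonneg M0 (Gp L mL)]
  refine ⟨by linarith, by linarith, fun G0 GE x hx => ?_⟩
  have e : Z = 2 * ((A - B) * (c - a) - A * (c - b)) / L := by
    rw [G0, GE] at hTL
    rw [eq_div_iff hL.ne']
    linarith
  have := hT x hx
  rw [e, G0] at this
  linear_combination this

theorem core2 {L c : ℝ} {V r h h1 D G T T1 : ℝ → ℝ} (hL : 0 < L)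
    (hV : ContinuousOn V (Icc 0 L)) (hr : Monotone r)
    (hd1 : ∀ x ∈ Ioo 0 L, HasDerivWithinAt V (r x) (Ioi x) x)
    (hh : ∀ x ∈ Icc 0 L, HasDerivAt h (h1 x) x) (hD : ∀ x ∈ Icc 0 L, HasDerivAt D (h x) x)
    (hG : ∀ x ∈ Icc 0 L, HasDerivAt G (D x) x) (h0 : h 0 = 0) (hE : h L = 0) (D0 : D 0 = 0)
    (DL : D L = 0) (G0 : G 0 = 0) (GE : G L = 0) (Gp : ∀ x ∈ Icc 0 L, 0 ≤ G x)
    (hk : ∀ s t, 0 ≤ s → s ≤ t → t ≤ L → (∀ x ∈ Icc s t, 0 < G x) → r s = r t)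
    (hT : ∀ x ∈ Icc 0 L, HasDerivAt T1 (T x) x)
    (eT : ∀ x ∈ Icc 0 L, h1 x - 4 * (V x - c) * D x = 4 * T x - 6 * (r x * G x))
    (hc : ∀ s t, 0 < s → s < t → t < L → T s ≤ 0 → T t < 0)
    (inc : MonotoneOn V (Icc 0 L) → V 0 < V L → T1 L < T1 0)
    (dec : AntitoneOn V (Icc 0 L) → V L < V 0 → T1 0 < T1 L) : ∀ x ∈ Icc 0 L, V x = V 0 := by
  have Dz := dz hG D0 DL Gp
  have hP : ∀ σ : ℝ, (∀ x ∈ Ioo 0 L, 0 ≤ σ * r x) → σ * T1 0 ≤ σ * T1 L := fun σ hσ => by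
    have := rle (f := fun x => σ * (4 * T1 x - (h x - 4 * (V x - c) * G x)))
      (f' := fun x => 10 * (σ * r x * G x)) hL.le
      (continuousOn_const.mul ((continuousOn_const.mul (dcont hT)).sub
        ((dcont hh).sub ((continuousOn_const.mul (hV.sub continuousOn_const)).mul (dcont hG)))))
      (fun x hx => by
        have m := Ioo_subset_Icc_self hx
        refine ((((hT x m).const_mul 4).hasDerivWithinAt.fun_sub
          ((hh x m).hasDerivWithinAt.fun_sub ((((hd1 x hx).sub_const c).const_mul 4).fun_mul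
            (hG x m).hasDerivWithinAt))).const_mul σ).congr_deriv ?_
        linear_combination -σ * eT x m)
      fun x hx => mul_nonneg (by norm_num) (mul_nonneg (hσ x hx) (Gp x (Ioo_subset_Icc_self hx)))
    simp only [h0, hE, G0, GE] at this
    linarith
  have hm : ∀ σ : ℝ, (∀ x ∈ Ioo 0 L, 0 ≤ σ * r x) → ∀ s ∈ Icc 0 L, ∀ t ∈ Icc 0 L, s ≤ t →
      σ * V s ≤ σ * V t := fun σ hσ s hs t ht hst =>
    rle (f := fun x => σ * V x) hst (continuousOn_const.mul (hV.mono (Icc_subset_Icc hs.1 ht.2)))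
      (fun x hx => (hd1 x ⟨hs.1.trans_lt hx.1, hx.2.trans_le ht.2⟩).const_mul σ)
      fun x hx => hσ x ⟨hs.1.trans_lt hx.1, hx.2.trans_le ht.2⟩
  have m0 : (0 : ℝ) ∈ Icc 0 L := ⟨le_rfl, hL.le⟩
  have mL : L ∈ Icc 0 L := ⟨hL.le, le_rfl⟩
  by_cases k1 : ∀ x ∈ Ioo 0 L, 0 ≤ 1 * r x
  · have g1 := hP 1 k1
    have g2 := hm 1 k1
    simp only [one_mul] at g1 g2
    have g3 : V L ≤ V 0 := not_lt.1 fun g => by
      linarith [inc (fun s hs t ht hst => g2 s hs t ht hst) g]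
    exact fun x hx => by linarith [g2 0 m0 x hx hx.1, g2 x hx L mL hx.2]
  by_cases k2 : ∀ x ∈ Ioo 0 L, 0 ≤ -1 * r x
  · have g1 := hP (-1) k2
    have g2 := hm (-1) k2
    have g3 : V 0 ≤ V L := not_lt.1 fun g => by
      linarith [dec (fun s hs t ht hst => by linarith [g2 s hs t ht hst]) g]
    exact fun x hx => by linarith [g2 0 m0 x hx hx.1, g2 x hx L mL hx.2]
  exfalso
  push Not at k1 k2
  obtain ⟨x1, m1, k1⟩ := k1
  obtain ⟨x2, m2, k2⟩ := k2
  have bd : x2 ∈ upperBounds {x | r x < 0} := fun x (hx : r x < 0) =>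
    not_lt.1 fun g => by linarith [hr g.le]
  have n1 : x1 ∈ {x | r x < 0} := by simpa using k1
  obtain ⟨p, hp'⟩ : ∃ p, IsLUB {x | r x < 0} p := ⟨_, isLUB_csSup ⟨x1, n1⟩ ⟨x2, bd⟩⟩
  have mp : p ∈ Ioo 0 L := ⟨m1.1.trans_le (hp'.1 n1), (hp'.2 bd).trans_lt m2.2⟩
  have mp' := Ioo_subset_Icc_self mp
  have l1 : ∀ x, x < p → r x < 0 := fun x hx => by
    obtain ⟨z, hz, g, -⟩ := hp'.exists_between hx
    exact (hr g.le).trans_lt hz
  have l2 : ∀ x, p < x → 0 ≤ r x := fun x hx => not_lt.1 fun g => absurd (hp'.1 g) (not_le.2 hx)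
  have Gc : G p = 0 := (Gp p mp').eq_of_not_lt' fun g => by
    have lc := rloc (dcont hG) hk mp' g
    rw [nhdsWithin_eq_nhds.2 (Icc_mem_nhds mp.1 mp.2)] at lc
    obtain ⟨z1, g1, g2⟩ := ((lc.filter_mono nhdsWithin_le_nhds).and
      (self_mem_nhdsWithin (s := Iio p))).exists
    obtain ⟨z2, g3, g4⟩ := ((lc.filter_mono nhdsWithin_le_nhds).and
      (self_mem_nhdsWithin (s := Ioi p))).exists
    linarith [l1 z1 g2, l2 z2 g4]
  have s1 : Icc 0 p ⊆ Icc 0 L := Icc_subset_Icc_right mp.2.le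
  have s2 : Icc p L ⊆ Icc 0 L := Icc_subset_Icc_left mp.1.le
  have cq : ContinuousOn (fun x => V x - c) (Icc 0 L) := hV.sub continuousOn_const
  obtain ⟨s, hs, j1⟩ : ∃ s ∈ Ioo 0 p, T s ≤ 0 := by
    by_contra hn
    push Not at hn
    obtain ⟨w, w', g1, g2, g3⟩ := exists_sol_left mp.1 (cq.mono s1)
    refine bsign (σ := 1) (hV.mono s1) (fun x hx => hd1 x ⟨hx.1, hx.2.trans mp.2⟩)
      (fun x hx => hh x (s1 hx)) (fun x hx => hD x (s1 hx)) (fun x hx => hG x (s1 hx)) g1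
      (nontriv g1 (cq.mono s1) (ne_of_der mp.1 g1 ⟨mp.1.le, le_rfl⟩ g3) le_rfl mp.1 le_rfl) G0 D0
      Gc (Dz p mp' Gc) (by simp [h0]) (by simp [g2]) fun x hx => ?_
    have m := s1 (Ioo_subset_Icc_self hx)
    rw [eT x m]
    linarith [hn x hx, mul_nonneg (neg_pos.2 (l1 x hx.2)).le (Gp x m)]
  obtain ⟨t, ht, j2⟩ : ∃ t ∈ Ioo p L, 0 ≤ T t := by
    by_contra hn
    push Not at hn
    obtain ⟨w, w', g1, g2, g3⟩ := exists_sol_right mp.2 (cq.mono s2)
    refine bsign (σ := -1) (hV.mono s2) (fun x hx => hd1 x ⟨mp.1.trans hx.1, hx.2⟩)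
      (fun x hx => hh x (s2 hx)) (fun x hx => hD x (s2 hx)) (fun x hx => hG x (s2 hx)) g1
      (nontriv g1 (cq.mono s2) (ne_of_der mp.2 g1 ⟨le_rfl, mp.2.le⟩ g3) le_rfl mp.2 le_rfl) Gc
      (Dz p mp' Gc) GE DL (by simp [g2]) (by simp [hE]) fun x hx => ?_
    have m := s2 (Ioo_subset_Icc_self hx)
    rw [eT x m]
    linarith [hn x hx, mul_nonneg (l2 x hx.1) (Gp x m)]
  linarith [hc s t hs.1 (hs.2.trans ht.1) ht.2 j1]

end Pool.Agent.Lib.MP_6547d0_mp.G
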