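import Pool.Agent.Lib.MP_6547d0_mp.R.Star

/-! A single crossing property for the first two mass functions. -/

set_option autoImplicit false

namespace Pool.Agent.Lib.MP_6547d0_mp.G

open Set Filter Topology Real MeasureTheory intervalIntegral

theorem Cls.refl {L M : ℝ} {V : ℝ → ℝ} (h : Cls L M V) : Cls L M fun x => V (L - x) :=
  ⟨by simpa using cvx_refl (s := L) h.1, fun x hx y hy => by
    have := h.2 _ (rmem hx) _ (rmem hy)
    rwa [sub_sub_sub_cancel_left, abs_sub_comm] at this⟩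

namespace Two

variable {L a b z : ℝ} {V u u' y y' F E : ℝ → ℝ} (h : Two L a b z V u u' y y' F E)
include h

theorem xi0 {x : ℝ} (h0 : 0 < x) (h1 : x ≤ z) : y x ^ 2 * F x < E x * u x ^ 2 := by
  have xL := h1.trans_lt h.hz.2
  have p := h.hp x ⟨h0, xL⟩
  have yx : y x ≤ 0 := by
    rcases h1.eq_or_lt with rfl | g
    · exact h.yz.le
    · exact (h.yn x ⟨h0, g⟩).le
  have := lt_of_der_pos (f := fun t => E t * u x ^ 2 - y x ^ 2 * F t) h0
    (fun t ht => ((h.hE t ⟨ht.1, ht.2.trans xL.le⟩).mul_const _).fun_sub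
      ((h.hF t ⟨ht.1, ht.2.trans xL.le⟩).const_mul _)) fun t ht => by
      have q := h.hp t ⟨ht.1, ht.2.trans xL⟩
      have g := (div_lt_div_iff₀ q p).1 (h.flt ht.1 ht.2 xL)
      nlinarith [mul_nonneg (neg_nonneg.2 yx) q.le]
  simp only [h.E0, h.F0] at this
  linarith

theorem xi1 (he : ∀ x ∈ Icc 0 L, 0 ≤ u' x ^ 2 + (a - V x) * u x ^ 2) {x : ℝ} (h0 : z ≤ x)
    (h1 : x < L) (h2 : 0 ≤ u' x) (h3 : F z ≤ 1 - F x) : (y x / u x) ^ 2 * F x ≤ E x := by
  have g := sub_pos.2 h.hab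
  have z0 := h.hz.1
  have i : ∀ t ∈ Icc z x, t ∈ Ioo 0 L := fun t ht => ⟨z0.trans_le ht.1, ht.2.trans_lt h1⟩
  have i' := fun t ht => Ioo_subset_Icc_self (i t ht)
  obtain ⟨φ, eφ⟩ : ∃ φ, φ = y x / u x := ⟨_, rfl⟩
  have φ0 : 0 ≤ φ := by
    rcases h0.eq_or_lt with rfl | g
    · simp [eφ, h.yz]
    · exact eφ ▸ (div_pos (h.yp x ⟨g, h1⟩) (h.hp x ⟨z0.trans g, h1⟩)).le
  have hq : ∀ (σ : ℝ) {s t}, 0 ≤ s → s ≤ t → t ≤ L →
      (b - a) * E s + 2 * σ * (y' s * u s - y s * u' s) + (b - a) * σ ^ 2 * F s ≤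
      (b - a) * E t + 2 * σ * (y' t * u t - y t * u' t) + (b - a) * σ ^ 2 * F t :=
    fun σ s t g1 g2 g3 => le_of_der_nonneg (f' := fun v => (b - a) * (y v - σ * u v) ^ 2) g2
      (fun v hv => by
        have m : v ∈ Icc 0 L := ⟨g1.trans hv.1, hv.2.trans g3⟩
        exact ((((h.hE v m).const_mul (b - a)).fun_add ((h.hP m).const_mul (2 * σ))).fun_add
          ((h.hF v m).const_mul ((b - a) * σ ^ 2))).congr_deriv (by ring))
      fun v _ => by positivity
  have b1 := hq (-φ) le_rfl z0.le h.hz.2.le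
  have b2 := hq φ z0.le h0 h1.le
  have b3 := dge (f := fun t => y' t * u t - y t * u' t + (b - a) * φ * F t) h1.le
    (fun t ht => (h.hP ⟨(z0.le.trans h0).trans ht.1, ht.2⟩).fun_add
      ((h.hF t ⟨(z0.le.trans h0).trans ht.1, ht.2⟩).const_mul _)) fun t ht => by
      have q := h.hp t ⟨(z0.trans_le h0).trans ht.1, ht.2⟩
      have := (lt_div_iff₀ q).1 (eφ ▸ h.flt (z0.trans_le h0) ht.1 ht.2)
      nlinarith [mul_pos (mul_pos g q) (sub_pos.2 this)]
  have K : ∀ t ∈ Icc z x, (y' t * u t - y t * u' t) / u t ^ 4 * (F t - F z) ≤ y t / u t :=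
    fun t ht => by
      have := le_of_der_nonneg
        (f := fun t => y t / u t - (y' t * u t - y t * u' t) / u t ^ 4 * (F t - F z))
        (f' := fun t => ((b - a) * y t * u t ^ 2 + 4 * (y' t * u t - y t * u' t) * u' t) / u t ^ 5
          * (F t - F z)) ht.1 (fun v hv => by
          have m := i v ⟨hv.1, hv.2.trans ht.2⟩
          have m' := Ioo_subset_Icc_self m
          have q := (h.hp v m).ne'
          refine ((h.hf m).fun_sub (((h.hP m').fun_div ((h.hu v m').1.fun_pow 4)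
            (pow_ne_zero 4 q)).fun_mul ((h.hF v m').sub_const _))).congr_deriv ?_
          simp only [Nat.cast_ofNat, Nat.add_one_sub_one]
          field_simp
          ring) fun v hv => by
          have m := i v ⟨hv.1.le, hv.2.le.trans ht.2⟩
          have q := h.hp v m
          have q1 := h.yp v ⟨hv.1, m.2⟩
          have q2 := h.Ppos m
          have q3 := h.up he m.1 (hv.2.le.trans ht.2) h1 h2
          have q4 := sub_nonneg.2 (h.Fle z0.le hv.1.le m.2.le)
          positivity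
      simp only [h.yz, zero_div, sub_self, mul_zero] at this
      linarith
  have b4 := le_of_der_nonneg
    (f := fun t => -2 * (y' t * u t - y t * u' t) - (b - a) * (y t / u t * (F t - F z)))
    (f' := fun t => (b - a) * u t ^ 2 *
      (y t / u t - (y' t * u t - y t * u' t) / u t ^ 4 * (F t - F z))) h0 (fun v hv => by
      have q := (h.hp v (i v hv)).ne'
      refine (((h.hP (i' v hv)).const_mul _).fun_sub (((h.hf (i v hv)).fun_mul
        ((h.hF v (i' v hv)).sub_const _)).const_mul _)).congr_deriv ?_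
      field_simp
      ring)
    fun v hv => mul_nonneg (by positivity) (sub_nonneg.2 (K v (Ioo_subset_Icc_self hv)))
  simp only [h.u0, h.y0, h.E0, h.F0, h.uL, h.yL, h.FL, ← eφ] at b1 b3 b4 ⊢
  refine le_of_mul_le_mul_left ?_ g
  nlinarith [mul_le_mul_of_nonneg_left b3 φ0, mul_le_mul_of_nonneg_left b4 φ0,
    mul_le_mul_of_nonneg_left h3 (mul_nonneg g.le (sq_nonneg φ))]

theorem xi2 {x : ℝ} (h1 : x < L) (h2 : (y x / u x) ^ 2 * F x ≤ E x) {t : ℝ}
    (ht : t ∈ Ioo 0 x) : y t ^ 2 * F t < E t * u t ^ 2 := by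
  rcases le_or_gt t z with g | g
  · exact h.xi0 ht.1 g
  have := ogt (f := fun s => E s - (y s / u s) ^ 2 * F s)
    (f' := fun s => -(2 * (y s / u s) * ((y' s * u s - y s * u' s) / u s ^ 2) * F s)) ht.2 ?_ ?_ ?_
  · have q := pow_pos (h.hp t ⟨ht.1, ht.2.trans h1⟩) 2
    rw [div_pow (y t), div_mul_eq_mul_div] at this
    exact (div_lt_iff₀ q).1 (by linarith)
  · exact dcont fun s hs => by
      have m : s ∈ Ioo 0 L := ⟨ht.1.trans_le hs.1, hs.2.trans_lt h1⟩
      exact (h.hE s (Ioo_subset_Icc_self m)).fun_sub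
        (((h.hf m).fun_pow 2).fun_mul (h.hF s (Ioo_subset_Icc_self m)))
  · intro s hs
    have m : s ∈ Ioo 0 L := ⟨ht.1.trans hs.1, hs.2.trans h1⟩
    have q := (h.hp s m).ne'
    refine ((h.hE s (Ioo_subset_Icc_self m)).fun_sub
      (((h.hf m).fun_pow 2).fun_mul (h.hF s (Ioo_subset_Icc_self m)))).congr_deriv ?_
    simp only [Nat.cast_ofNat, Nat.add_one_sub_one, pow_one]
    field_simp
    ring
  · intro s hs
    have m : s ∈ Ioo 0 L := ⟨ht.1.trans hs.1, hs.2.trans h1⟩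
    have q := h.hp s m
    have q1 := h.yp s ⟨g.trans hs.1, m.2⟩
    have q2 := h.Ppos m
    have q3 : 0 < F s := h.F0 ▸ h.Flt le_rfl m.1 m.2.le
    exact neg_neg_of_pos (by positivity)

theorem mono1 {α β s t : ℝ} (hα : 0 ≤ α) (hβ : 0 < β) (h1 : 0 < s) (h2 : s < t) (h3 : t < L)
    (h4 : ∀ x ∈ Ioo s t, F x ≤ x * u x ^ 2 ∧ y x ^ 2 * F x < E x * u x ^ 2)
    (h5 : α * (s / L - F s) + β * (E s - F s) ≤ 0) : α * (t / L - F t) + β * (E t - F t) < 0 := by
  have hL := h.hL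
  have p : ∀ x ∈ Icc s t, 0 < F x := fun x hx =>
    h.F0 ▸ h.Flt le_rfl (h1.trans_le hx.1) (hx.2.trans h3.le)
  have d := fun x (hx : x ∈ Icc s t) => ((((hasDerivAt_id' x).div_const L).const_mul α).fun_add
    ((h.hE x ⟨h1.le.trans hx.1, hx.2.trans h3.le⟩).const_mul β)).fun_div
    (h.hF x ⟨h1.le.trans hx.1, hx.2.trans h3.le⟩) (p x hx).ne'
  have := ogt h2 (dcont d) (fun x hx => d x (Ioo_subset_Icc_self hx)) fun x hx => by
    refine div_neg_of_neg_of_pos ?_ (pow_pos (p x (Ioo_subset_Icc_self hx)) 2)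
    have g1 := mul_le_mul_of_nonneg_left (h4 x hx).1 (div_nonneg hα hL.le)
    have g2 := mul_lt_mul_of_pos_left (h4 x hx).2 hβ
    have e : α * (1 / L) = α / L := by ring
    have e' : α * (x / L) = α / L * x := by ring
    rw [e, e']
    linarith
  have g := (div_le_iff₀ (p s ⟨le_rfl, h2.le⟩)).2
    (show α * (s / L) + β * E s ≤ (α + β) * F s by linarith)
  linarith [(div_lt_iff₀ (p t ⟨h2.le, le_rfl⟩)).1 (this.trans_le g)]

theorem cross0 {M α β m s t : ℝ} (hV : Cls L M V) (hM : 0 ≤ M) (hα : 0 ≤ α) (hβ : 0 < β)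
    (mm : m ∈ Ioo 0 L) (m0 : u' m = 0) (zm : z ≤ m) (h1 : 0 < s) (h2 : s < t) (h3 : t < L)
    (h4 : α * (s / L - F s) + β * (E s - F s) ≤ 0) : α * (t / L - F t) + β * (E t - F t) < 0 := by
  have hL := h.hL
  have z0 := h.hz.1
  obtain ⟨r, hr, -, -, -, hd⟩ := exists_r hL hM hV
  have hd1 := fun x hx => (hd x hx).1
  have he := energy h.cV hr hd1 h.hu h.u0 h.uL
  obtain ⟨x, x1, x2, x3, x4⟩ : ∃ x, z ≤ x ∧ x ≤ m ∧ (x = m ∨ 1 / 2 ≤ F x) ∧
      (y x / u x) ^ 2 * F x ≤ E x := by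
    rcases le_total (F z) (1 - F m) with g | g
    · exact ⟨m, zm, le_rfl, Or.inl rfl, h.xi1 he zm mm.2 m0.ge g⟩
    rcases le_total (1 / 2) (F z) with g' | g'
    · refine ⟨z, le_rfl, zm, Or.inr g', ?_⟩
      have := h.xi0 z0 le_rfl
      simp only [h.yz, zero_div] at this ⊢
      nlinarith [pow_pos (h.hp z h.hz) 2]
    obtain ⟨x, hx, e⟩ := intermediate_value_Icc zm
      ((dcont h.hF).mono (Icc_subset_Icc z0.le mm.2.le))
      (show 1 - F z ∈ Icc (F z) (F m) by constructor <;> linarith)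
    exact ⟨x, hx.1, hx.2, Or.inr (by linarith), h.xi1 he hx.1 (hx.2.trans_lt mm.2)
      (h.up he (z0.trans_le hx.1) hx.2 mm.2 m0.ge) (by linarith)⟩
  have x0 := z0.trans_le x1
  have xL := x2.trans_lt mm.2
  have k1 : ∀ s t, 0 < s → s < t → t ≤ x → α * (s / L - F s) + β * (E s - F s) ≤ 0 →
      α * (t / L - F t) + β * (E t - F t) < 0 := fun s t g1 g2 g3 =>
    h.mono1 hα hβ g1 g2 (g3.trans_lt xL) fun v hv => ⟨by
      have m' : v ∈ Ioo 0 L := ⟨g1.trans hv.1, hv.2.trans (g3.trans_lt xL)⟩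
      simpa using h.refl.lam0 (fun w hw => by simpa using he _ (rmem hw)) (rmem' m')
        (by simpa using h.up he m'.1 (hv.2.le.trans (g3.trans x2)) mm.2 m0.ge),
      h.xi2 xL x4 ⟨g1.trans hv.1, hv.2.trans_le g3⟩⟩
  have k2 : ∀ s t, x ≤ s → s < t → t < L → 0 ≤ α * (t / L - F t) + β * (E t - F t) →
      0 < α * (s / L - F s) + β * (E s - F s) := fun s t g1 g2 g3 g4 => by
    have := h.refl.mono1 hα hβ (s := L - t) (t := L - s) (by linarith) (by linarith) (by linarith)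
      (fun v hv => ⟨by
        have m' : L - v ∈ Ioo 0 L := ⟨by linarith [hv.2], by linarith [hv.1]⟩
        rcases x3 with e | e
        · simpa using h.lam0 he m' (h.dn he mm.1 (by linarith [hv.2]) m'.2 m0.le)
        · simpa using h.star hV.1 hr hd1 m' (e.trans (h.Fle x0.le (by linarith [hv.2]) m'.2.le)),
        h.refl.xi0 (by linarith [hv.1]) (by linarith [hv.2])⟩)
      (by simp only [sub_sub_cancel, sub_div, div_self hL.ne']; linarith)
    simp only [sub_sub_cancel, sub_div, div_self hL.ne'] at this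
    linarith
  by_contra hn
  push Not at hn
  rcases le_or_gt t x with g | g
  · linarith [k1 s t h1 h2 g h4]
  rcases le_or_gt x s with g' | g'
  · linarith [k2 s t g' h2 h3 hn]
  linarith [k1 s x h1 g' le_rfl h4, k2 x t le_rfl g h3 hn]

theorem cross2 {M α β s t : ℝ} (hV : Cls L M V) (hM : 0 ≤ M) (hα : 0 ≤ α) (hβ : 0 < β)
    (h1 : 0 < s) (h2 : s < t) (h3 : t < L) (h4 : α * (s / L - F s) + β * (E s - F s) ≤ 0) :
    α * (t / L - F t) + β * (E t - F t) < 0 := by
  obtain ⟨m, mm, m0, -⟩ := h.top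
  rcases le_total z m with g | g
  · exact h.cross0 hV hM hα hβ mm m0 g h1 h2 h3 h4
  by_contra hn
  have := h.refl.cross0 hV.refl hM hα hβ (rmem' mm) (by simpa using m0) (by linarith)
    (s := L - t) (t := L - s) (by linarith) (by linarith) (by linarith)
    (by simp only [sub_sub_cancel, sub_div, div_self h.hL.ne']; linarith)
  simp only [sub_sub_cancel, sub_div, div_self h.hL.ne'] at this
  linarith

end Two

end Pool.Agent.Lib.MP_6547d0_mp.G
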