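import Pool.Agent.Lib.MP_6547d0_mp.R.Two

/-! Eigenfunctions next to an endpoint where the potential is steep. -/

set_option autoImplicit false

namespace Pool.Agent.Lib.MP_6547d0_mp.G

open Set Filter Topology Real MeasureTheory intervalIntegral

theorem steep {q y y' : ℝ → ℝ} {p L l K M w : ℝ} (hK : 0 ≤ K) (hl : L - p ≤ l)
    (hM : 2 * w * (w ^ 2 + K) + (w ^ 2 + K) ^ 2 * l ≤ M) (hy : Sol q y y' p L) (yL : y L = 0)
    (dL : y' L < 0) (hq : ∀ x ∈ Icc p L, -K + M * (x - p) ≤ q x) :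
    ∀ x ∈ Ico p L, 0 < y x ∧ y' x + w * y x ≤ 0 := by
  obtain ⟨s, es⟩ : ∃ s, s = w ^ 2 + K := ⟨_, rfl⟩
  have s0 : 0 ≤ s := by rw [es]; positivity
  rw [← es] at hM
  have dψ : ∀ x, HasDerivAt (fun x => w * (x - p) + s * (x - p) ^ 2 / 2) (w + s * (x - p)) x :=
    fun x => by
      have g := (hasDerivAt_id' x).sub_const p
      refine ((g.const_mul w).fun_add (((g.fun_pow 2).const_mul s).div_const 2)).congr_deriv ?_
      simp only [Nat.cast_ofNat, Nat.add_one_sub_one, pow_one]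
      ring
  have df : ∀ x ∈ Icc p L, HasDerivAt (fun x => y' x + (w + s * (x - p)) * y x)
      (q x * y x + (s * y x + (w + s * (x - p)) * y' x)) x := fun x hx =>
    ((hy x hx).2.fun_add (((((hasDerivAt_id' x).sub_const p).const_mul s).const_add w).fun_mul
      (hy x hx).1)).congr_deriv (by ring)
  have A : ∀ x ∈ Ico p L, (∀ t ∈ Ioo x L, y' t + (w + s * (t - p)) * y t < 0) → 0 < y x :=
    fun x hx h => by
      have d := fun t (ht : t ∈ Icc x L) => (hy t ⟨hx.1.trans ht.1, ht.2⟩).1.fun_mul (dψ t).exp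
      have := ogt hx.2 (dcont d) (fun t ht => d t (Ioo_subset_Icc_self ht)) fun t ht => by
        nlinarith [mul_pos (neg_pos.2 (h t ht)) (exp_pos (w * (t - p) + s * (t - p) ^ 2 / 2))]
      rw [yL, zero_mul] at this
      exact (mul_pos_iff_of_pos_right (exp_pos _)).1 this
  have B : ∀ x ∈ Icc p L, y' x + (w + s * (x - p)) * y x < 0 := fun x hx => not_le.1 fun hn => by
    obtain ⟨t, t1, t2, t3, t4⟩ := last_le (f := fun x => -(y' x + (w + s * (x - p)) * y x)) hx.2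
      ((dcont df).mono (Icc_subset_Icc_left hx.1)).fun_neg (by linarith) (by rw [yL]; linarith)
    have pt := hx.1.trans t1
    have := le_of_der_nonneg t2.le
      (fun v hv => (df v ⟨pt.trans hv.1, hv.2⟩).fun_mul (dψ v).fun_neg.exp) fun v hv => by
        have v0 : 0 ≤ v - p := by linarith [hv.1]
        have g1 := A v ⟨by linarith, hv.2⟩ fun r hr => by linarith [t4 r ⟨hv.1.trans hr.1, hr.2.le⟩]
        have g2 := hq v ⟨by linarith, hv.2.le⟩
        have g3 : s ^ 2 * (v - p) ≤ s ^ 2 * l :=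
          mul_le_mul_of_nonneg_left (by linarith [hv.2]) (sq_nonneg s)
        have g4 : 0 ≤ q v + s - (w + s * (v - p)) ^ 2 := by
          nlinarith [mul_nonneg v0 (show 0 ≤ M - 2 * w * s - s ^ 2 * (v - p) by linarith)]
        nlinarith [mul_nonneg (mul_nonneg g4 g1.le)
          (exp_pos (-(w * (v - p) + s * (v - p) ^ 2 / 2))).le]
    rw [neg_eq_zero.1 t3, yL] at this
    nlinarith [exp_pos (-(w * (L - p) + s * (L - p) ^ 2 / 2))]
  intro x hx
  have g := A x hx fun t ht => B t ⟨hx.1.trans ht.1.le, ht.2.le⟩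
  exact ⟨g, by nlinarith [B x (Ico_subset_Icc_self hx), mul_nonneg (mul_nonneg s0
    (sub_nonneg.2 hx.1)) g.le]⟩

theorem cmp2 {V u u' y y' : ℝ → ℝ} {a b x L γ w η : ℝ} (hx : x < L) (hab : a < b) (hw : 0 < w)
    (hγ : b - a ≤ 2 * w * γ) (hη : γ * (L - x) ≤ η)
    (hu : Sol (fun x => V x - a) u u' x L) (uL : u L = 0) (dL : u' L = -1)
    (su : ∀ t ∈ Ico x L, 0 < u t ∧ u' t + w * u t ≤ 0)
    (hy : Sol (fun x => V x - b) y y' x L) (yL : y L = 0) (eL : y' L = -1)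
    (sy : ∀ t ∈ Ico x L, 0 < y t ∧ y' t + w * y t ≤ 0) : y x ≤ u x ∧ (1 - η) * u x ≤ y x := by
  have g0 := sub_pos.2 hab
  have γ0 : 0 < γ := (mul_pos_iff_of_pos_left (by linarith)).1 (g0.trans_le hγ)
  have dP : ∀ t ∈ Icc x L, HasDerivAt (fun t => y' t * u t - y t * u' t)
      (-((b - a) * (y t * u t))) t := fun t ht => (((hy t ht).2.fun_mul (hu t ht).1).fun_sub
    ((hy t ht).1.fun_mul (hu t ht).2)).congr_deriv (by ring)
  have P : ∀ t ∈ Ico x L, 0 ≤ y' t * u t - y t * u' t ∧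
      y' t * u t - y t * u' t ≤ γ * (y t * u t) := fun t ht => by
    have m : ∀ v ∈ Icc t L, v ∈ Icc x L := fun v hv => ⟨ht.1.trans hv.1, hv.2⟩
    have m' : ∀ v ∈ Ioo t L, v ∈ Ico x L := fun v hv => ⟨ht.1.trans hv.1.le, hv.2⟩
    have h1 := dge ht.2.le (fun v hv => dP v (m v hv)) fun v hv =>
      neg_nonpos.2 (mul_pos g0 (mul_pos (sy v (m' v hv)).1 (su v (m' v hv)).1)).le
    have h2 := le_of_der_nonneg ht.2.le (fun v hv => (dP v (m v hv)).fun_sub
      (((hy v (m v hv)).1.fun_mul (hu v (m v hv)).1).const_mul γ)) fun v hv => by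
        obtain ⟨k1, k2⟩ := su v (m' v hv)
        obtain ⟨k3, k4⟩ := sy v (m' v hv)
        nlinarith [mul_le_mul_of_nonneg_right hγ (mul_pos k3 k1).le,
          mul_le_mul_of_nonneg_left k2 (mul_pos γ0 k3).le,
          mul_le_mul_of_nonneg_left k4 (mul_pos γ0 k1).le]
    simp only [uL, yL] at h1 h2
    constructor <;> linarith
  have mL : L ∈ Icc x L := ⟨hx.le, le_rfl⟩
  have ux := (su x ⟨le_rfl, hx⟩).1
  have yx := (sy x ⟨le_rfl, hx⟩).1
  have m : ∀ {t v}, t ∈ Ioo x L → v ∈ Icc x t → v ∈ Ico x L := fun ht hv =>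
    ⟨hv.1, hv.2.trans_lt ht.2⟩
  have m' := fun {t v} ht hv => Ico_subset_Icc_self (m (t := t) (v := v) ht hv)
  constructor
  · have := der_le ((hy L mL).1.fun_sub ((hu L mL).1.const_mul (y x / u x))) hx fun t ht => by
      have := le_of_der_nonneg ht.1.le (fun v hv => (hy v (m' ht hv)).1.fun_div (hu v (m' ht hv)).1
        (su v (m ht hv)).1.ne') fun v hv =>
          div_nonneg (P v (m ht (Ioo_subset_Icc_self hv))).1 (sq_nonneg _)
      rw [le_div_iff₀ (su t (Ioo_subset_Ico_self ht)).1] at this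
      simp only [uL, yL]
      linarith
    rw [dL, eL] at this
    exact (div_le_one ux).1 (by linarith)
  have dc : ∀ t, HasDerivAt (fun t => 1 - γ * (L - t)) γ t := fun t =>
    ((((hasDerivAt_id' t).const_sub L).const_mul γ).const_sub 1).congr_deriv (by ring)
  have := der_le (((hu L mL).1.fun_mul (dc L)).fun_sub
    ((hy L mL).1.const_mul (u x * (1 - γ * (L - x)) / y x))) hx fun t ht => by
    have := le_of_der_nonneg ht.1.le (fun v hv => ((hu v (m' ht hv)).1.fun_mul (dc v)).fun_div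
      (hy v (m' ht hv)).1 (sy v (m ht hv)).1.ne') fun v hv => div_nonneg (by
        have k := m ht (Ioo_subset_Icc_self hv)
        have k1 : 0 ≤ γ * (L - v) := mul_nonneg γ0.le (by linarith [k.2])
        have k2 : γ * (L - v) ≤ γ * (L - x) := mul_le_mul_of_nonneg_left (by linarith [k.1]) γ0.le
        nlinarith [mul_nonneg (P v k).1 k1, (P v k).2]) (sq_nonneg _)
    rw [le_div_iff₀ (sy t (Ioo_subset_Ico_self ht)).1] at this
    simp only [uL, yL]
    linarith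
  rw [dL, eL, uL] at this
  have g := (div_le_one yx).1 (show u x * (1 - γ * (L - x)) / y x ≤ 1 by linarith)
  nlinarith [mul_le_mul_of_nonneg_left hη ux.le]

theorem kbound {L Γ : ℝ} (hL : 0 < L) (hΓ : 0 < Γ) : ∃ K : ℝ, 0 ≤ K ∧
    ∀ {a b z : ℝ} {V u u' y y' F E : ℝ → ℝ}, Two L a b z V u u' y y' F E →
      ConvexOn ℝ (Icc 0 L) V → (∀ x ∈ Icc 0 L, 0 ≤ u' x ^ 2 + (a - V x) * u x ^ 2) → b - a < Γ →
      ∀ x ∈ Icc 0 L, a ≤ V x + K := by
  obtain ⟨K, hK, hG⟩ := lemG hL hΓ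
  have nt : ∀ {a b z : ℝ} {V u u' y y' F E : ℝ → ℝ}, Two L a b z V u u' y y' F E →
      ∃ x ∈ Icc z L, y x ≠ 0 := fun {a b z V u u' y y' F E} h =>
    have m : (z + L) / 2 ∈ Ioo z L := ⟨by linarith [h.hz.2], by linarith [h.hz.2]⟩
    ⟨_, Ioo_subset_Icc_self m, (h.yp _ m).ne'⟩
  have k1 : ∀ {a b z : ℝ} {V u u' y y' F E : ℝ → ℝ}, Two L a b z V u u' y y' F E →
      ConvexOn ℝ (Icc 0 L) V → (∀ x ∈ Icc 0 L, 0 ≤ u' x ^ 2 + (a - V x) * u x ^ 2) → b - a < Γ →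
      u' z ≤ 0 → a ≤ V z + K := fun {a b z V u u' y y' F E} h hV he hγ g =>
    have z0 := h.hz.1
    hG V u u' y y' a b z L h.hz.2 (by linarith)
      (hV.subset (Icc_subset_Icc_left z0.le) (convex_Icc _ _)) (h.hu.mono z0.le le_rfl)
      (fun x hx => h.hp x ⟨z0.trans_le hx.1, hx.2⟩) h.uL g
      (fun x hx => he x ⟨z0.le.trans hx.1, hx.2⟩) (h.hy.mono z0.le le_rfl) h.yz h.yL (nt h) hγ
  have k2 : ∀ {a b z : ℝ} {V u u' y y' F E : ℝ → ℝ}, Two L a b z V u u' y y' F E →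
      ConvexOn ℝ (Icc 0 L) V → b - a < Γ → a ≤ V z + K →
      ∀ x ∈ Icc 0 z, a ≤ V x + (K + 3 * L * (K + Γ) ^ 2 * L) :=
    fun {a b z V u u' y y' F E} h hV hγ g x hx => not_lt.1 fun hn => by
      have z0 := h.hz.1
      have N0 : 0 < 3 * L * (K + Γ) ^ 2 := by positivity
      have xz : x < z := hx.2.lt_of_ne (by rintro rfl; nlinarith)
      have := lemA (E := K + Γ) (l := L) (by linarith) le_rfl (by linarith) (fun t ht => by
        rcases ht.1.eq_or_lt with rfl | g'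
        · simp
        have g1 := hV.secant_mono_aux1 ⟨hx.1, hx.2.trans h.hz.2.le⟩ ⟨z0.le.trans ht.1, ht.2⟩ xz g'
        have g2 : 3 * L * (K + Γ) ^ 2 * (z - x) ≤ V z - V x := by
          nlinarith [mul_nonneg N0.le (show 0 ≤ L - (z - x) by linarith [hx.1, h.hz.2])]
        exact le_of_mul_le_mul_left
          (by nlinarith [mul_le_mul_of_nonneg_left g2 (sub_pos.2 g').le]) (sub_pos.2 xz))
        (h.hy.mono z0.le le_rfl) h.yz h.yL (nt h)
      linarith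
  refine ⟨K + 3 * L * (K + Γ) ^ 2 * L, by positivity,
    fun {a b z V u u' y y' F E} h hV he hγ x hx => ?_⟩
  have hV' : ConvexOn ℝ (Icc 0 L) fun x => V (L - x) := by simpa using cvx_refl (s := L) hV
  have g : a ≤ V z + K := by
    rcases le_total (u' z) 0 with g | g
    · exact k1 h hV he hγ g
    · simpa using k1 h.refl hV' (fun x hx => by simpa using he _ (rmem hx)) hγ (by simpa using g)
  rcases le_total x z with g' | g'
  · exact k2 h hV hγ g x ⟨hx.1, g'⟩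
  · simpa using k2 h.refl hV' hγ (by simpa using g) (L - x) ⟨by linarith [hx.2], by linarith⟩

theorem cap2 {L Γ C0 Z0 : ℝ} (hL : 0 < L) (hΓ : 0 < Γ) (hC : 0 ≤ C0) (hZ : 0 < Z0) : ∃ M0 : ℝ,
    ∀ M, M0 ≤ M → ∀ {a b c z p A B : ℝ} {V u u' y y' F E v v' D : ℝ → ℝ},
      Two L a b z V u u' y y' F E → ConvexOn ℝ (Icc 0 L) V →
      (∀ x ∈ Icc 0 L, 0 ≤ u' x ^ 2 + (a - V x) * u x ^ 2) → Sol (fun x => V x - c) v v' 0 L →
      v L = 0 → (∃ x ∈ Icc 0 L, v x ≠ 0) → b < c → c - a < Γ → 0 < A → 0 ≤ A - B → A - B ≤ C0 →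
      Z0 ≤ A * y' L ^ 2 - B * v' L ^ 2 - (A - B) * u' L ^ 2 →
      (∀ x ∈ Icc 0 L, HasDerivAt D (A * y x ^ 2 - B * v x ^ 2 - (A - B) * u x ^ 2) x) → D L = 0 →
      0 ≤ p → p < L → D p = 0 → (∀ s t, p < s → s ≤ t → t ≤ L → V s + M * (t - s) ≤ V t) →
      False := by
  obtain ⟨K, hK, kb⟩ := kbound hL hΓ
  obtain ⟨N, N0, eN⟩ : ∃ N, 0 ≤ N ∧ N = C0 * (K * (L + 1) / 2) ^ 2 := ⟨_, by positivity, rfl⟩
  obtain ⟨η, η0, η1, η2⟩ : ∃ η, 0 < η ∧ η ≤ 1 / 4 ∧ η * (4 * N + 1) ≤ Z0 :=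
    ⟨min (1 / 4) (Z0 / (4 * N + 1)), by positivity, min_le_left _ _,
      (le_div_iff₀ (by positivity)).1 (min_le_right _ _)⟩
  obtain ⟨w, w0, ew⟩ : ∃ w, 0 < w ∧ 2 * w * (η / L) = Γ :=
    ⟨Γ * L / (2 * η), by positivity, by field_simp⟩
  refine ⟨2 * w * (w ^ 2 + (K + Γ)) + (w ^ 2 + (K + Γ)) ^ 2 * L,
    fun M hM a b c z p A B V u u' y y' F E v v' D h hV he hv vL v0 hbc hγ A0 C1 C2 Z1 hD DL p0 pL
      Dp hs => ?_⟩
  have hab := h.hab
  have k := kb h hV he (by linarith)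
  have mL : L ∈ Icc 0 L := ⟨hL.le, le_rfl⟩
  have a1 : u' L ^ 2 ≤ (K * (L + 1) / 2) ^ 2 := by
    have := le_of_der_nonneg (f := fun t => u' t + K * (t + F t) / 2) hL.le
      (fun t ht => (h.hu t ht).2.fun_add
        ((((hasDerivAt_id' t).fun_add (h.hF t ht)).const_mul K).div_const 2)) fun t ht => by
        nlinarith [mul_le_mul_of_nonneg_right (k t (Ioo_subset_Icc_self ht)) (h.hp t ht).le,
          mul_nonneg hK (sq_nonneg (u t - 1))]
    simp only [h.F0, h.FL] at this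
    exact sq_le_sq' (by linarith [h.ud0]) (h.udL.le.trans (by positivity))
  have a2 : (A - B) * u' L ^ 2 ≤ N := eN ▸ mul_le_mul C2 a1 (sq_nonneg _) hC
  have a3 := mul_nonneg C1 (sq_nonneg (u' L))
  have := lt_of_der_pos pL (fun x hx => hD x ⟨p0.trans hx.1, hx.2⟩) fun x hx => by
    have x0 := p0.trans hx.1.le
    have nm : ∀ {φ φ' : ℝ → ℝ} {e : ℝ}, e ≤ c → Sol (fun x => V x - e) φ φ' 0 L → φ L = 0 →
        (∃ x ∈ Icc 0 L, φ x ≠ 0) → ∃ ψ ψ' : ℝ → ℝ, Sol (fun x => V x - e) ψ ψ' x L ∧ ψ L = 0 ∧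
          ψ' L = -1 ∧ (∀ t ∈ Ico x L, 0 < ψ t ∧ ψ' t + w * ψ t ≤ 0) ∧
          φ x ^ 2 = φ' L ^ 2 * ψ x ^ 2 := fun {φ φ' e} h1 h2 h3 h4 => by
      have d := der_ne h2 (h.cV.sub continuousOn_const) h4 mL h3
      have s := (h2.mono x0 le_rfl).smul (-(φ' L)⁻¹)
      have e1 : -(φ' L)⁻¹ * φ' L = -1 := by field_simp
      refine ⟨_, _, s, by simp [h3], e1, steep (K := K + Γ) (by linarith) (by linarith) hM s
        (by simp [h3]) (by simp only [e1]; norm_num) fun t ht => ?_, by field_simp⟩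
      linarith [hs x t hx.1 ht.1 ht.2, k x ⟨x0, hx.2.le⟩]
    have mz : (z + L) / 2 ∈ Ioo z L := ⟨by linarith [h.hz.2], by linarith [h.hz.2]⟩
    obtain ⟨U, U', u1, u2, u3, u4, u5⟩ := nm (by linarith) h.hu h.uL
      ⟨z, Ioo_subset_Icc_self h.hz, (h.hp z h.hz).ne'⟩
    obtain ⟨Y, Y', y1, y2, y3, y4, y5⟩ := nm hbc.le h.hy h.yL
      ⟨_, ⟨(h.hz.1.trans mz.1).le, mz.2.le⟩, (h.yp _ mz).ne'⟩
    obtain ⟨W, W', v1, v2, v3, v4, v5⟩ := nm le_rfl hv vL v0
    have hη : η / L * (L - x) ≤ η := by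
      rw [div_mul_eq_mul_div, div_le_iff₀ hL]
      linarith [mul_nonneg η0.le x0]
    have c1 := (cmp2 hx.2 hab w0 (by linarith) hη u1 u2 u3 u4 y1 y2 y3 y4).2
    have c2 := (cmp2 hx.2 (hab.trans hbc) w0 (by linarith) hη u1 u2 u3 u4 v1 v2 v3
      v4).2
    have c3 := (cmp2 hx.2 hbc w0 (by linarith) hη y1 y2 y3 y4 v1 v2 v3 v4).1
    have U0 := (u4 x ⟨le_rfl, hx.2⟩).1
    have c0 : 0 ≤ (1 - η) * U x := mul_nonneg (by linarith) U0.le
    have d1 := pow_le_pow_left₀ c0 c1 2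
    have d2 := pow_le_pow_left₀ c0 c2 2
    have d3 := pow_le_pow_left₀ (c0.trans c2) c3 2
    have e1 : (A * y' L ^ 2 - B * v' L ^ 2) * ((1 - η) * U x) ^ 2 ≤ A * y x ^ 2 - B * v x ^ 2 := by
      rw [y5, v5]
      rcases le_total 0 B with g | g
      · linarith [mul_le_mul_of_nonneg_left d3 (mul_nonneg g (sq_nonneg (v' L))),
          mul_le_mul_of_nonneg_left d1 (show 0 ≤ A * y' L ^ 2 - B * v' L ^ 2 by linarith)]
      · linarith [mul_le_mul_of_nonneg_left d2 (mul_nonneg (neg_nonneg.2 g) (sq_nonneg (v' L))),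
          mul_le_mul_of_nonneg_left d1 (mul_nonneg A0.le (sq_nonneg (y' L)))]
    have e2 : (A - B) * u' L ^ 2 < (A * y' L ^ 2 - B * v' L ^ 2) * (1 - η) ^ 2 := by
      have g1 : (Z0 + (A - B) * u' L ^ 2) * (1 - 2 * η) ≤
          (A * y' L ^ 2 - B * v' L ^ 2) * (1 - η) ^ 2 :=
        mul_le_mul (by linarith) (by linarith [sq_nonneg η]) (by linarith) (by linarith)
      linarith [mul_le_mul_of_nonneg_left a2 η0.le, mul_le_mul_of_nonneg_left η1 hZ.le]
    rw [u5]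
    linarith [mul_lt_mul_of_pos_right e2 (pow_pos U0 2)]
  linarith

end Pool.Agent.Lib.MP_6547d0_mp.G
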