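import Pool.Agent.Lib.MP_6547d0_mp.R.Mean
import Pool.Agent.Lib.MP_6547d0_mp.R.Steep
import Pool.Agent.Lib.MP_6547d0_mp.R.Crit

/-! The sharp bound for the quotient of two gaps above the first eigenvalue. -/

set_option autoImplicit false

namespace Pool.Agent.Lib.MP_6547d0_mp.G

open Set Filter Topology Real MeasureTheory intervalIntegral

theorem exists_min2 {L M : ℝ} (ε : ℝ) {m : ℕ} (hL : 0 < L) (hM : 0 < M) (hm : 1 < m) :
    ∃ (V : ℝ → ℝ) (a b c : ℝ), Cls L M V ∧ IsNth L V 1 a ∧ IsNth L V 2 b ∧ IsNth L V m c ∧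
      ∀ U a' b' c', Cls L M U → IsNth L U 1 a' → IsNth L U 2 b' → IsNth L U m c' →
        ε * (c - a) + (b - a) / (c - a) ≤ ε * (c' - a') + (b' - a') / (c' - a') := by
  set K : Set (ℝ → ℝ) := (univ.pi fun _ => Icc (-(M * L)) (M * L)) ∩ {V | Cls L M V}
  have hK : IsCompact K := by
    refine (isCompact_univ_pi fun _ => isCompact_Icc).inter_right ?_
    have : {V | Cls L M V} = {V | ConvexOn ℝ (Icc 0 L) V} ∩
        ⋂ x ∈ Icc 0 L, ⋂ y ∈ Icc 0 L, {V : ℝ → ℝ | V x ≤ V y + M * |x - y|} := by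
      ext V
      simp only [mem_inter_iff, mem_iInter, mem_ofPred_eq, Cls]
    rw [this]
    exact isClosed_setOfPred_convexOn.inter (isClosed_biInter fun x _ =>
      isClosed_biInter fun y _ => isClosed_le (by fun_prop) (by fun_prop))
  have hML : 0 ≤ M * L := by positivity
  have hne : K.Nonempty := ⟨fun _ => 0, fun _ _ => ⟨by linarith, hML⟩,
    convexOn_const _ (convex_Icc _ _), fun x _ y _ => by simp only [zero_add]; positivity⟩
  let lam : ℕ → (ℝ → ℝ) → ℝ := fun n V => Classical.epsilon (IsNth L V n)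
  have hlam : ∀ n V, 1 ≤ n → Cls L M V → IsNth L V n (lam n V) := fun n V hn hV =>
    Classical.epsilon_spec (nth_exists hL hV.cont hn)
  have hc : ∀ n, 1 ≤ n → ContinuousOn (lam n) K := fun n hn V hV => by
    refine Metric.tendsto_nhds.2 fun ε hε => ?_
    have := (isCompact_Icc (a := 0) (b := L)).eventually_forall_of_forall_eventually (x₀ := V)
      (P := fun U x => x ∈ Icc 0 L → U ∈ K → |U x - V x| ≤ ε / 2) fun y hy => by
        have t1 : Tendsto (fun z : (ℝ → ℝ) × ℝ => |z.1 y - V y| + 2 * (M * |z.2 - y|))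
            (𝓝 (V, y)) (𝓝 0) := by
          have : Continuous fun z : (ℝ → ℝ) × ℝ => |z.1 y - V y| + 2 * (M * |z.2 - y|) := by
            fun_prop
          simpa using this.tendsto (V, y)
        filter_upwards [t1.eventually_le_const (half_pos hε)] with z hz hx hU
        have h1 := Cls.abs hU.2 hx hy
        have h2 := Cls.abs hV.2 hx hy
        have h3 := abs_sub_le (z.1 z.2) (z.1 y) (V z.2)
        have h4 := abs_sub_le (z.1 y) (V y) (V z.2)
        rw [abs_sub_comm (V y)] at h4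
        linarith
    filter_upwards [nhdsWithin_le_nhds this, self_mem_nhdsWithin] with U h1 hU
    have := nth_abs hL hU.2.cont hV.2.cont (fun x hx => h1 x hx hx hU) (hlam n U hn hU.2)
      (hlam n V hn hV.2)
    rw [Real.dist_eq]
    linarith
  have c1 := (hc m hm.le).fun_sub (hc 1 le_rfl)
  obtain ⟨V, hV, hmin⟩ := hK.exists_isMinOn hne (((continuousOn_const (c := ε)).fun_mul c1).fun_add
    (((hc 2 one_le_two).fun_sub (hc 1 le_rfl)).div c1 fun U hU =>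
      (sub_pos.2 (nth_lt hm (hlam 1 U le_rfl hU.2) (hlam m U hm.le hU.2))).ne'))
  refine ⟨V, _, _, _, hV.2, hlam 1 V le_rfl hV.2, hlam 2 V one_le_two hV.2, hlam m V hm.le hV.2,
    fun U a' b' c' hU ha hb hc => ?_⟩
  have e : ∀ x ∈ Icc 0 L, U (max 0 (min x L)) + -U 0 = U x + -U 0 := fun x hx => by
    rw [cl_eq hx]
  have hU1 : Cls L M fun x => U (max 0 (min x L)) + -U 0 :=
    ⟨(hU.1.add_const (-U 0)).congr fun x hx => (e x hx).symm, fun x hx y hy => by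
      simp only [e x hx, e y hy]; linarith [hU.2 x hx y hy]⟩
  have hU2 : (fun x => U (max 0 (min x L)) + -U 0) ∈ K := ⟨fun x _ => by
    have hx := cl_mem hL.le x
    have h1 := hU.abs hx ⟨le_rfl, hL.le⟩
    rw [sub_zero, abs_of_nonneg hx.1] at h1
    exact abs_le.1 (h1.trans (mul_le_mul_of_nonneg_left hx.2 hM.le)), hU1⟩
  have uq : ∀ n s, 1 ≤ n → IsNth L U n s →
      lam n (fun x => U (max 0 (min x L)) + -U 0) = s + -U 0 := fun n s hn hs =>
    sub_eq_zero.1 (abs_nonpos_iff.1 (nth_abs (c := 0) hL hU1.cont hU1.cont (by simp)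
      (hlam n _ hn hU1) ((isNth_shift e _ _).2 hs)))
  have := hmin hU2
  simp only [mem_ofPred_eq, Pi.div_apply, uq 1 _ le_rfl ha, uq 2 _ one_le_two hb, uq m _ hm.le hc,
    add_sub_add_right_eq_sub] at this
  exact this

theorem varineq2 {L M ε a b c : ℝ} {m : ℕ} {V U u u' y y' v v' : ℝ → ℝ} (hL : 0 < L) (hm : 1 < m)
    (hV : Cls L M V) (ha : IsNth L V 1 a) (hb : IsNth L V 2 b) (hc : IsNth L V m c)
    (hmin : ∀ U a' b' c', Cls L M U → IsNth L U 1 a' → IsNth L U 2 b' → IsNth L U m c' →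
      ε * (c - a) + (b - a) / (c - a) ≤ ε * (c' - a') + (b' - a') / (c' - a'))
    (hu : Sol (fun x => V x - a) u u' 0 L) (u0 : u 0 = 0) (uL : u L = 0)
    (uN : ∫ x in (0 : ℝ)..L, u x ^ 2 = 1) (hy : Sol (fun x => V x - b) y y' 0 L) (y0 : y 0 = 0)
    (yL : y L = 0) (yN : ∫ x in (0 : ℝ)..L, y x ^ 2 = 1) (hv : Sol (fun x => V x - c) v v' 0 L)
    (v0 : v 0 = 0) (vL : v L = 0) (vN : ∫ x in (0 : ℝ)..L, v x ^ 2 = 1) (hU : Cls L M U) {A B : ℝ}
    (eA : A = c - a) (eB : B = b - a - ε * (c - a) ^ 2) :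
    ∫ x in (0 : ℝ)..L, V x * (A * y x ^ 2 - B * v x ^ 2 - (A - B) * u x ^ 2) ≤
      ∫ x in (0 : ℝ)..L, U x * (A * y x ^ 2 - B * v x ^ 2 - (A - B) * u x ^ 2) := by
  have hW := hU.cont.fun_sub hV.cont
  obtain ⟨α, h1, h2⟩ := first hL hV.cont hW ha le_rfl hu u0 uL uN
  obtain ⟨β, h3, h4⟩ := first hL hV.cont hW hb one_le_two hy y0 yL yN
  obtain ⟨γ, h5, h6⟩ := first hL hV.cont hW hc hm.le hv v0 vL vN
  have g0 := sub_pos.2 (nth_lt hm ha hc)
  have t0 : Tendsto (fun t : ℝ => t) (𝓝[>] 0) (𝓝 0) := tendsto_id.mono_left nhdsWithin_le_nhds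
  have h7 := ge_of_tendsto (b := 0) ((((h6.sub h2).const_mul ε).mul
    (((t0.mul (h6.sub h2)).const_add (c - a)).const_mul (c - a))).add
    (((h4.sub h2).mul_const (c - a)).sub ((h6.sub h2).const_mul (b - a)))) (by
    filter_upwards [Ioo_mem_nhdsGT one_pos] with t ht
    have := hmin _ _ _ _ ⟨((hV.1.smul (sub_nonneg.2 ht.2.le)).add (hU.1.smul ht.1.le)).congr
      fun x _ => by simp only [Pi.add_apply, smul_eq_mul]; ring, fun x hx z hz => by
        nlinarith [mul_le_mul_of_nonneg_left (hV.2 x hx z hz) (sub_nonneg.2 ht.2.le),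
          mul_le_mul_of_nonneg_left (hU.2 x hx z hz) ht.1.le]⟩ (h1 t) (h3 t) (h5 t)
    have g1 := sub_pos.2 (nth_lt hm (h1 t) (h5 t))
    have t1 := ht.1
    have e : ε * ((γ t - c) / t - (α t - a) / t) * ((c - a) * (c - a + t * ((γ t - c) / t
        - (α t - a) / t))) + (((β t - b) / t - (α t - a) / t) * (c - a)
        - (b - a) * ((γ t - c) / t - (α t - a) / t)) = (ε * (γ t - α t) + (β t - α t) / (γ t - α t)
        - (ε * (c - a) + (b - a) / (c - a))) * ((c - a) * (γ t - α t) / t) := by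
      field_simp
      ring
    rw [e]
    exact mul_nonneg (sub_nonneg.2 this) (by positivity))
  have i := fun {q w w' : ℝ → ℝ} (hw : Sol q w w' 0 L) =>
    (hW.fun_mul (hw.cont.fun_pow 2)).intervalIntegrable_of_Icc (μ := volume) hL.le
  have ch := (((continuousOn_const (c := A)).fun_mul (hy.cont.fun_pow 2)).fun_sub
    ((continuousOn_const (c := B)).fun_mul (hv.cont.fun_pow 2))).fun_sub
    ((continuousOn_const (c := A - B)).fun_mul (hu.cont.fun_pow 2))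
  rw [← sub_nonneg, ← intervalIntegral.integral_sub
    ((hU.cont.fun_mul ch).intervalIntegrable_of_Icc hL.le)
    ((hV.cont.fun_mul ch).intervalIntegrable_of_Icc hL.le),
    integral_congr (g := fun x => A * ((U x - V x) * y x ^ 2) - B * ((U x - V x) * v x ^ 2)
      - (A - B) * ((U x - V x) * u x ^ 2)) fun x _ => by ring,
    intervalIntegral.integral_sub (((i hy).const_mul A).sub ((i hv).const_mul B))
      ((i hu).const_mul _), intervalIntegral.integral_sub ((i hy).const_mul A) ((i hv).const_mul B)]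
  simp only [intervalIntegral.integral_const_mul, eA, eB]
  linarith

theorem ratio_cls {L K a0 b0 c0 : ℝ} {m : ℕ} {U : ℝ → ℝ} (hL : 0 < L) (hm : 2 < m)
    (hU : Cls L K U) (ha0 : IsNth L U 1 a0) (hb0 : IsNth L U 2 b0) (hc0 : IsNth L U m c0) :
    c0 - a0 ≤ ((m : ℝ) ^ 2 - 1) / 3 * (b0 - a0) := by
  have hm1 : 1 < m := by omega
  have mm : 0 < (m : ℝ) ^ 2 - 1 := by
    have : (1 : ℝ) < m := by exact_mod_cast hm1
    nlinarith
  by_contra hn
  push Not at hn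
  have g0 := sub_pos.2 (nth_lt hm1 ha0 hc0)
  have ρ0 : (b0 - a0) / (c0 - a0) < 3 / ((m : ℝ) ^ 2 - 1) := by
    rw [div_lt_div_iff₀ g0 mm]
    linarith
  obtain ⟨ε, ε0, ε1⟩ : ∃ ε, 0 < ε ∧
      ε * (c0 - a0) + (b0 - a0) / (c0 - a0) < 3 / ((m : ℝ) ^ 2 - 1) :=
    ⟨(3 / ((m : ℝ) ^ 2 - 1) - (b0 - a0) / (c0 - a0)) / 2 / (c0 - a0),
      div_pos (by linarith) g0, by rw [div_mul_cancel₀ _ g0.ne']; linarith⟩
  obtain ⟨Γ, hΓ, eΓ⟩ : ∃ Γ, 0 < Γ ∧ ε * Γ = 3 / ((m : ℝ) ^ 2 - 1) :=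
    ⟨3 / ((m : ℝ) ^ 2 - 1) / ε, by positivity, by field_simp⟩
  have γ0 : 0 < ((m : ℝ) ^ 2 - 1) * π ^ 2 / L ^ 2 := by positivity
  obtain ⟨M0, hcap⟩ := cap2 (C0 := Γ + ε * Γ ^ 2)
    (Z0 := 2 * (ε * (((m : ℝ) ^ 2 - 1) * π ^ 2 / L ^ 2) ^ 3) / L) hL hΓ (by positivity)
    (by positivity)
  obtain ⟨M, M1, M2, M3⟩ : ∃ M, 0 < M ∧ M0 ≤ M ∧ K ≤ M := ⟨max 1 (max M0 K),
    one_pos.trans_le (le_max_left _ _), (le_max_left _ _).trans (le_max_right _ _),
    (le_max_right _ _).trans (le_max_right _ _)⟩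
  obtain ⟨V, a, b, c, hV, ha, hb, hc, hmin⟩ := exists_min2 ε hL M1 hm1
  have J := (hmin U a0 b0 c0 ⟨hU.1, fun x hx z hz => (hU.2 x hx z hz).trans (by
    linarith [mul_le_mul_of_nonneg_right M3 (abs_nonneg (x - z))])⟩ ha0 hb0 hc0).trans_lt ε1
  have hab := nth_lt one_lt_two ha hb
  have hbc := nth_lt hm hb hc
  have A0 : 0 < c - a := by linarith
  have hγ : c - a < Γ :=
    lt_of_mul_lt_mul_left (by linarith [div_pos (sub_pos.2 hab) A0]) ε0.le
  have cV := hV.cont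
  obtain ⟨u, u', hu, u0, uL, uN, hp⟩ := nth_norm hL cV ha
  obtain ⟨y, y', z, hy, y0, yL, yN, hz, yn, yz, yp⟩ := nth2 hL cV hb
  obtain ⟨v, v', hv, v0, vL, vN, -⟩ := nth_norm hL cV hc
  obtain ⟨F, F0, FL, hF⟩ := prim hL.le (hu.cont.fun_pow 2)
  obtain ⟨E, E0, EL, hE⟩ := prim hL.le (hy.cont.fun_pow 2)
  obtain ⟨N, N0, NL, hN⟩ := prim hL.le (hv.cont.fun_pow 2)
  have h : Two L a b z V u u' y y' F E := ⟨cV, hu, u0, uL, hp rfl, hy, y0, yL, hab, hz, yn, yz, yp,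
    hF, F0, FL.trans uN, hE, E0, EL.trans yN⟩
  obtain ⟨r, hr, rb, r0, rL, hd⟩ := exists_r hL M1.le hV
  have hd1 := fun x hx => (hd x hx).1
  obtain ⟨A, eA⟩ : ∃ A, A = c - a := ⟨_, rfl⟩
  obtain ⟨B, eB⟩ : ∃ B, B = b - a - ε * (c - a) ^ 2 := ⟨_, rfl⟩
  obtain ⟨D, D0, DL, hD⟩ : ∃ D : ℝ → ℝ, D 0 = 0 ∧ D L = 0 ∧ ∀ x ∈ Icc 0 L,
      HasDerivAt D (A * y x ^ 2 - B * v x ^ 2 - (A - B) * u x ^ 2) x :=
    ⟨fun x => A * E x - B * N x - (A - B) * F x, by simp [E0, N0, F0],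
      by simp [h.EL, h.FL, NL, vN], fun x hx => (((hE x hx).const_mul A).fun_sub
        ((hN x hx).const_mul B)).fun_sub ((hF x hx).const_mul _)⟩
  have hh : ∀ x ∈ Icc 0 L, HasDerivAt (fun x => A * y x ^ 2 - B * v x ^ 2 - (A - B) * u x ^ 2)
      (2 * (A * (y x * y' x) - B * (v x * v' x) - (A - B) * (u x * u' x))) x := fun x hx => by
    refine (((((hy x hx).1.fun_pow 2).const_mul A).fun_sub (((hv x hx).1.fun_pow 2).const_mul
      B)).fun_sub (((hu x hx).1.fun_pow 2).const_mul (A - B))).congr_deriv ?_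
    simp only [Nat.cast_ofNat, Nat.add_one_sub_one, pow_one]
    ring
  obtain ⟨H, -, -, hH⟩ := prim hL.le (dcont hD)
  obtain ⟨t, ht, tmin⟩ := isCompact_Icc.exists_isMinOn (nonempty_Icc.2 hL.le) (dcont hH)
  obtain ⟨G, hG, Gp, Gt⟩ : ∃ G : ℝ → ℝ, (∀ x ∈ Icc 0 L, HasDerivAt G (D x) x) ∧
      (∀ x ∈ Icc 0 L, 0 ≤ G x) ∧ G t = 0 := ⟨fun x => H x - H t,
    fun x hx => (hH x hx).sub_const _, fun x hx => sub_nonneg.2 (tmin hx), sub_self _⟩
  have cG := dcont hG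
  have hk := kkt hL cV hr r0 rL hd1 (dcont hh) hD hG D0 DL Gp ht Gt
    (varineq2 (U := fun x => M * |x - t|) hL hm1 hV ha hb hc hmin hu u0 uL uN hy y0 yL yN hv v0 vL
      vN ⟨(convexOn_dist t (convex_Icc 0 L)).smul M1.le, fun x _ z _ => by
        nlinarith [abs_sub_le x z t]⟩ eA eB)
  have he := energy cV hr hd1 hu u0 uL
  have hv0 : ∃ x ∈ Icc 0 L, v x ≠ 0 := by
    by_contra hn
    push Not at hn
    rw [integral_congr (g := fun _ => 0) fun x hx => by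
      rw [uIcc_of_le hL.le] at hx; simp [hn x hx]] at vN
    simp at vN
  obtain ⟨Z1, Z2, eT⟩ := h.zt rb r0 rL hd hv v0 vL hD hG D0 DL Gp hk
  have eΦ : (A - B) * (c - a) - A * (c - b) = ε * (c - a) ^ 3 := by rw [eA, eB]; ring
  rw [eΦ] at Z1 Z2 eT
  have Z0 : 2 * (ε * (((m : ℝ) ^ 2 - 1) * π ^ 2 / L ^ 2) ^ 3) / L ≤ 2 * (ε * (c - a) ^ 3) / L := by
    have := lower hL hm1 cV hV.1 ha hc
    gcongr
  have C1 : 0 ≤ A - B := by rw [eA, eB]; linarith [mul_pos ε0 (pow_pos A0 2)]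
  have C2 : A - B ≤ Γ + ε * Γ ^ 2 := by
    rw [eA, eB]
    linarith [mul_le_mul_of_nonneg_left (pow_le_pow_left₀ A0.le hγ.le 2) ε0.le]
  have m0 : (0 : ℝ) ∈ Icc 0 L := ⟨le_rfl, hL.le⟩
  have mL : L ∈ Icc 0 L := ⟨hL.le, le_rfl⟩
  have sl : ∀ σ s s', 0 ≤ s → s ≤ s' → s' ≤ L → (∀ x ∈ Ioo s s', σ * r x = M) →
      σ * V s + M * (s' - s) ≤ σ * V s' := fun σ s s' h1 h2 h3 h4 => by
    have := rle (f := fun x => σ * V x - M * x) h2
      ((continuousOn_const.mul (cV.mono (Icc_subset_Icc h1 h3))).sub (by fun_prop))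
      (fun x hx => ((hd1 x ⟨h1.trans_lt hx.1, hx.2.trans_le h3⟩).const_mul σ).fun_sub
        ((hasDerivAt_id' x).const_mul M).hasDerivWithinAt) fun x hx => by simp [h4 x hx]
    linarith
  have GE : G L = 0 := (Gp L mL).eq_of_not_lt' fun g => by
    obtain ⟨p, p1, p2, p3, p4⟩ := last_le ht.2 (cG.mono (Icc_subset_Icc_left ht.1)) Gt.le g
    have p0 := ht.1.trans p1
    refine hcap M M2 h hV.1 he hv vL hv0 hbc hγ (eA ▸ A0) C1 C2 (Z0.trans Z1) hD DL p0 p2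
      (dz hG D0 DL Gp p ⟨p0, p2.le⟩ p3) fun s s' h1 h2 h3 => ?_
    simpa using sl 1 s s' (p0.trans h1.le) h2 h3 fun x hx => by
      rw [one_mul, ← rL]
      exact hk x L (p0.trans (h1.trans hx.1).le) (hx.2.le.trans h3) le_rfl
        fun z hz => p4 z ⟨(h1.trans hx.1).trans_le hz.1, hz.2⟩
  have G0 : G 0 = 0 := (Gp 0 m0).eq_of_not_lt' fun g => by
    obtain ⟨p, p1, p2, p3, p4⟩ := first_le ht.1 (cG.mono (Icc_subset_Icc_right ht.2)) Gt.le g
    have pL := p2.trans ht.2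
    obtain ⟨ζ, z1, z2⟩ := hv0
    refine hcap M M2 (D := fun x => -D (L - x)) (p := L - p) h.refl hV.refl.1
      (fun x hx => by simpa using he _ (rmem hx)) hv.refl0 (by simpa using v0)
      ⟨L - ζ, rmem z1, by simpa using z2⟩ hbc hγ (eA ▸ A0) C1 C2
      (Z0.trans (Z2.trans_eq (by simp)))
      (fun x hx => (hd_refl (hD _ (rmem hx))).fun_neg.congr_deriv (by ring)) (by simpa using D0)
      (by linarith) (by linarith) (by simpa using dz hG D0 DL Gp p ⟨p1.le, pL⟩ p3)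
      fun s s' h1 h2 h3 => ?_
    have := sl (-1) (L - s') (L - s) (by linarith) (by linarith) (by linarith) fun x hx => by
      rw [← hk 0 x le_rfl (by linarith [hx.1]) (by linarith [hx.2])
        fun z hz => p4 z ⟨hz.1, by linarith [hz.2, hx.2]⟩, r0]
      ring
    linarith
  obtain ⟨F1, -, -, hF1⟩ := prim hL.le (dcont hF)
  obtain ⟨H1, -, -, hH1⟩ := prim hL.le ((dcont hE).fun_sub (dcont hF))
  have Φ0 : 0 < ε * (c - a) ^ 3 := by positivity
  have β0 : 0 < A * (c - b) := mul_pos (eA ▸ A0) (sub_pos.2 hbc)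
  have eL : L ^ 2 / 2 / L = L / 2 := by field_simp
  have e0 : (0 : ℝ) ^ 2 / 2 / L = 0 := by simp
  have hq := core2 (T1 := fun x => ε * (c - a) ^ 3 * (x ^ 2 / 2 / L - F1 x) + A * (c - b) * H1 x)
    hL cV hr hd1 hh hD hG (by simp [y0, v0, u0]) (by simp [yL, vL, uL]) D0 DL G0 GE Gp hk
    (fun x hx => by
      refine (((((((hasDerivAt_id' x).fun_pow 2).div_const 2).div_const L).fun_sub
        (hF1 x hx)).const_mul _).fun_add ((hH1 x hx).const_mul _)).congr_deriv ?_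
      simp only [Nat.cast_ofNat, Nat.add_one_sub_one, pow_one]
      ring) (eT G0 GE) (fun s t => h.cross2 hV M1.le Φ0.le β0)
    (fun k1 k2 => by
      have g1 := reflmono hL cV k1 k2 hu u0 uL h.hp hF hF1
      have g2 := h.mean k1 (fun s t q1 q2 q3 q4 => by
        simpa using h.cross2 hV M1.le le_rfl one_pos q1 q2 q3 (by simpa using q4)) hH1
      rw [F0, h.FL] at g1
      simp only [eL, e0]
      linarith [mul_lt_mul_of_pos_left g1 Φ0, mul_le_mul_of_nonneg_left g2 β0.le])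
    (fun k1 k2 => by
      have k3 : MonotoneOn (fun x => V (L - x)) (Icc 0 L) := fun s hs t ht hst =>
        k1 (rmem ht) (rmem hs) (by linarith)
      have g1 := reflmono (F1 := fun x => x + F1 (L - x)) hL h.refl.cV k3 (by simpa using k2)
        h.refl.hu h.refl.u0 h.refl.uL h.refl.hp h.refl.hF
        fun x hx => (hasDerivAt_id' x).fun_add (hd_refl (hF1 _ (rmem hx)))
      have g2 := h.refl.mean (H := fun x => H1 (L - x)) k3 (fun s t q1 q2 q3 q4 => by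
        simpa using h.refl.cross2 hV.refl M1.le le_rfl one_pos q1 q2 q3 (by simpa using q4))
        fun x hx => (hd_refl (hH1 _ (rmem hx))).congr_deriv (by ring)
      simp only [sub_zero, sub_self, F0, h.FL] at g1 g2
      simp only [eL, e0]
      linarith [mul_lt_mul_of_pos_left g1 Φ0, mul_le_mul_of_nonneg_left g2 β0.le])
  have e : (b - a) / (c - a) = 3 / ((m : ℝ) ^ 2 - 1) := by
    rw [div_eq_div_iff A0.ne' mm.ne', nth_const hL hq ha, nth_const hL hq hb, nth_const hL hq hc]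
    push_cast
    ring
  linarith [mul_pos ε0 A0]

theorem approx {L ε : ℝ} {V : ℝ → ℝ} (hL : 0 < L) (cV : ContinuousOn V (Icc 0 L))
    (hV : ConvexOn ℝ (Icc 0 L) V) (hε : 0 < ε) :
    ∃ K U, Cls L K U ∧ ∀ x ∈ Icc 0 L, |V x - U x| ≤ ε := by
  obtain ⟨δ, hδ, hu⟩ := Metric.uniformContinuousOn_iff.1
    (isCompact_Icc.uniformContinuousOn_of_continuous cV) ε hε
  obtain ⟨η, η0, η1, η2⟩ : ∃ η, 0 < η ∧ η ≤ 1 ∧ η * L ≤ δ / 2 :=
    ⟨min 1 (δ / 2 / L), by positivity, min_le_left _ _, (le_div_iff₀ hL).1 (min_le_right _ _)⟩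
  have ηL := mul_pos η0 hL
  have e : Metric.ball (L / 2) (L / 2) = Ioo 0 L := by rw [Real.ball_eq_Ioo]; congr 1 <;> ring
  obtain ⟨K, hK⟩ := ConvexOn.exists_lipschitzOnWith_of_isBounded (f := V) (x₀ := L / 2) (r := L / 2)
    (r' := L / 2 - η * L / 4) (e ▸ hV.subset Ioo_subset_Icc_self (convex_Ioo _ _)) (by linarith)
    (e ▸ (isCompact_Icc.image_of_continuousOn cV).isBounded.subset
      (image_mono Ioo_subset_Icc_self))
  have i : ∀ x ∈ Icc 0 L, η * L / 2 + (1 - η) * x ∈ Icc (η * L / 2) (L - η * L / 2) := fun x hx =>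
    ⟨by nlinarith [hx.1], by nlinarith [hx.2]⟩
  have i1 : ∀ x ∈ Icc 0 L, η * L / 2 + (1 - η) * x ∈ Icc 0 L := fun x hx =>
    ⟨by linarith [(i x hx).1], by linarith [(i x hx).2]⟩
  have i2 : ∀ x ∈ Icc 0 L, η * L / 2 + (1 - η) * x ∈ Metric.ball (L / 2) (L / 2 - η * L / 4) :=
    fun x hx => by
      rw [Real.ball_eq_Ioo]
      exact ⟨by linarith [(i x hx).1], by linarith [(i x hx).2]⟩
  refine ⟨K, fun x => V (η * L / 2 + (1 - η) * x),
    ⟨⟨convex_Icc _ _, fun x hx y hy α β h1 h2 h3 => ?_⟩, fun x hx y hy => ?_⟩, fun x hx =>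
    (hu x hx _ (i1 x hx) (abs_lt.2 ⟨by nlinarith [hx.1], by nlinarith [hx.2]⟩)).le⟩
  · have := hV.2 (i1 x hx) (i1 y hy) h1 h2 h3
    rwa [show α • (η * L / 2 + (1 - η) * x) + β • (η * L / 2 + (1 - η) * y) =
      η * L / 2 + (1 - η) * (α • x + β • y) by
        simp only [smul_eq_mul]; linear_combination η * L / 2 * h3] at this
  · have h1 := hK.le_add_mul (i2 x hx) (i2 y hy)
    rw [Real.dist_eq, add_sub_add_left_eq_sub, ← mul_sub, abs_mul,
      abs_of_nonneg (sub_nonneg.2 η1)] at h1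
    simp only
    linarith [mul_nonneg (mul_nonneg K.coe_nonneg η0.le) (abs_nonneg (x - y))]

theorem ratio_le {L a b c : ℝ} {m : ℕ} {V : ℝ → ℝ} (hL : 0 < L) (hm : 2 < m)
    (cV : ContinuousOn V (Icc 0 L)) (hV : ConvexOn ℝ (Icc 0 L) V) (ha : IsNth L V 1 a)
    (hb : IsNth L V 2 b) (hc : IsNth L V m c) : c - a ≤ ((m : ℝ) ^ 2 - 1) / 3 * (b - a) := by
  obtain ⟨κ, eκ⟩ : ∃ κ, κ = ((m : ℝ) ^ 2 - 1) / 3 := ⟨_, rfl⟩
  have κ0 : 0 < κ := by
    have : (2 : ℝ) < m := by exact_mod_cast hm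
    nlinarith
  rw [← eκ]
  refine le_of_forall_pos_le_add fun ε hε => ?_
  obtain ⟨η, η0, eη⟩ : ∃ η, 0 < η ∧ (2 + 2 * κ) * η = ε :=
    ⟨ε / (2 + 2 * κ), by positivity, by field_simp⟩
  obtain ⟨K, U, hU, h⟩ := approx hL cV hV η0
  obtain ⟨a', ha'⟩ := nth_exists hL hU.cont le_rfl
  obtain ⟨b', hb'⟩ := nth_exists hL hU.cont one_le_two
  obtain ⟨c', hc'⟩ := nth_exists hL hU.cont (show 1 ≤ m by omega)
  have h1 := abs_le.1 (nth_abs hL cV hU.cont h ha ha')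
  have h2 := abs_le.1 (nth_abs hL cV hU.cont h hb hb')
  have h3 := abs_le.1 (nth_abs hL cV hU.cont h hc hc')
  have h4 := ratio_cls hL hm hU ha' hb' hc'
  rw [← eκ] at h4
  linarith [mul_le_mul_of_nonneg_left (show b' - a' ≤ b - a + 2 * η by linarith) κ0.le]

end Pool.Agent.Lib.MP_6547d0_mp.G
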