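import Pool.Agent.Lib.MP_6547d0_mp.R.Cross

/-! For a nondecreasing potential the second state lies on average right of the first. -/

set_option autoImplicit false

namespace Pool.Agent.Lib.MP_6547d0_mp.G

open Set Filter Topology Real MeasureTheory intervalIntegral

namespace Two

variable {L a b z : ℝ} {V u u' y y' F E : ℝ → ℝ} (h : Two L a b z V u u' y y' F E)
include h

theorem inv : ∃ X : ℝ → ℝ, (∀ τ ∈ Icc 0 1, X τ ∈ Icc 0 L ∧ F (X τ) = τ) ∧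
    ContinuousOn X (Icc 0 1) ∧ (∀ s ∈ Icc 0 1, ∀ t ∈ Icc 0 1, s < t → X s < X t) ∧ X 0 = 0 ∧
    X 1 = L ∧ ∀ τ ∈ Ioo 0 1, X τ ∈ Ioo 0 L ∧ HasDerivAt X (u (X τ) ^ 2)⁻¹ τ := by
  have hL := h.hL
  have ex : ∀ τ ∈ Icc (0 : ℝ) 1, ∃ x ∈ Icc 0 L, F x = τ := fun τ hτ =>
    intermediate_value_Icc hL.le (dcont h.hF) (by rwa [h.F0, h.FL])
  choose! X hX eX using ex
  have lt : ∀ s ∈ Icc (0 : ℝ) 1, ∀ c ∈ Icc 0 L, F c < s → c < X s := fun s hs c hc g =>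
    not_le.1 fun g' => by linarith [h.Fle (hX s hs).1 g' hc.2, eX s hs]
  have gt : ∀ s ∈ Icc (0 : ℝ) 1, ∀ c ∈ Icc 0 L, s < F c → X s < c := fun s hs c hc g =>
    not_le.1 fun g' => by linarith [h.Fle hc.1 g' (hX s hs).2, eX s hs]
  have cX : ContinuousOn X (Icc 0 1) := fun τ hτ => by
    refine tendsto_order.2 ⟨fun c hc => ?_, fun c hc => ?_⟩
    · rcases lt_or_ge c 0 with g | g
      · filter_upwards [self_mem_nhdsWithin] with s hs using g.trans_le (hX s hs).1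
      have := h.Flt g hc (hX τ hτ).2
      rw [eX τ hτ] at this
      filter_upwards [self_mem_nhdsWithin, nhdsWithin_le_nhds (Ioi_mem_nhds this)] with s hs g'
        using lt s hs c ⟨g, hc.le.trans (hX τ hτ).2⟩ g'
    · rcases lt_or_ge L c with g | g
      · filter_upwards [self_mem_nhdsWithin] with s hs using (hX s hs).2.trans_lt g
      have := h.Flt (hX τ hτ).1 hc g
      rw [eX τ hτ] at this
      filter_upwards [self_mem_nhdsWithin, nhdsWithin_le_nhds (Iio_mem_nhds this)] with s hs g'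
        using gt s hs c ⟨(hX τ hτ).1.trans hc.le, g⟩ g'
  have m0 : (0 : ℝ) ∈ Icc (0 : ℝ) 1 := ⟨le_rfl, zero_le_one⟩
  have m1 : (1 : ℝ) ∈ Icc (0 : ℝ) 1 := ⟨zero_le_one, le_rfl⟩
  refine ⟨X, fun τ hτ => ⟨hX τ hτ, eX τ hτ⟩, cX,
    fun s hs t ht g => lt t ht _ (hX s hs) (by rwa [eX s hs]),
    (hX 0 m0).1.eq_of_not_lt' fun g => by linarith [h.Flt le_rfl g (hX 0 m0).2, eX 0 m0, h.F0],
    (hX 1 m1).2.eq_of_not_lt fun g => by linarith [h.Flt (hX 1 m1).1 g le_rfl, eX 1 m1, h.FL],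
    fun τ hτ => ?_⟩
  have m := Ioo_subset_Icc_self hτ
  have mx : X τ ∈ Ioo 0 L := ⟨lt τ m 0 ⟨le_rfl, hL.le⟩ (h.F0.trans_lt hτ.1),
    gt τ m L ⟨hL.le, le_rfl⟩ (hτ.2.trans_eq h.FL.symm)⟩
  refine ⟨mx, HasDerivAt.of_local_left_inverse (cX.continuousAt (Icc_mem_nhds hτ.1 hτ.2))
    (h.hF _ (hX τ m)) (pow_pos (h.hp _ mx) 2).ne' ?_⟩
  filter_upwards [Icc_mem_nhds hτ.1 hτ.2] with s hs using eX s hs

theorem allowed (hm : MonotoneOn V (Icc 0 L)) {p q : ℝ} (h1 : 0 < p) (h2 : p < q) (h3 : q < L)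
    (h4 : u p < u q) : (V p - a) / u p < (V q - a) / u q := by
  have mp : p ∈ Ioo 0 L := ⟨h1, h2.trans h3⟩
  have k : V p < a := not_le.1 fun g => by
    obtain ⟨ξ, x1, x2⟩ := mvt_pos h2.le
      (fun x hx => (h.hu x ⟨h1.le.trans hx.1, hx.2.trans h3.le⟩).1) h4
    have x0 := h1.trans x1.1
    have := le_of_der_nonneg (x1.2.trans h3).le (fun x hx => (h.hu x ⟨x0.le.trans hx.1, hx.2⟩).2)
      fun x hx => mul_nonneg (by
        linarith [hm (Ioo_subset_Icc_self mp) ⟨(x0.trans hx.1).le, hx.2.le⟩ (x1.1.trans hx.1).le])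
        (h.hp x ⟨x0.trans hx.1, hx.2⟩).le
    linarith [h.udL]
  have g := hm (Ioo_subset_Icc_self mp) ⟨(h1.trans h2).le, h3.le⟩ h2.le
  have p0 := h.hp p mp
  rw [div_lt_div_iff₀ p0 (p0.trans h4)]
  nlinarith

theorem mean {H : ℝ → ℝ} (hm : MonotoneOn V (Icc 0 L))
    (hc : ∀ s t, 0 < s → s < t → t < L → E s - F s ≤ 0 → E t - F t < 0)
    (hH : ∀ x ∈ Icc 0 L, HasDerivAt H (E x - F x) x) : H L ≤ H 0 := by
  obtain ⟨X, x1, x2, x3, x4, x5, x6⟩ := h.inv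
  obtain ⟨f, cf, ef⟩ := h.ratio
  have g0 := sub_pos.2 h.hab
  have i1 : ∀ τ ∈ Icc (0 : ℝ) (1 / 2), τ ∈ Icc (0 : ℝ) 1 := fun τ hτ => ⟨hτ.1, by linarith [hτ.2]⟩
  have i2 : ∀ τ ∈ Icc (0 : ℝ) (1 / 2), 1 - τ ∈ Icc (0 : ℝ) 1 := fun τ hτ => rmem (i1 τ hτ)
  have j1 : ∀ τ ∈ Ioc (0 : ℝ) (1 / 2), X τ ∈ Ioo 0 L := fun τ hτ =>
    (x6 τ ⟨hτ.1, by linarith [hτ.2]⟩).1
  have j2 : ∀ τ ∈ Ioc (0 : ℝ) (1 / 2), X (1 - τ) ∈ Ioo 0 L := fun τ hτ =>
    (x6 _ ⟨by linarith [hτ.2], by linarith [hτ.1]⟩).1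
  have o := fun τ (hτ : τ ∈ Ioo (0 : ℝ) (1 / 2)) => Ioo_subset_Ioc_self hτ
  have pq : ∀ τ ∈ Ioo (0 : ℝ) (1 / 2), X τ < X (1 - τ) := fun τ hτ =>
    x3 _ (i1 τ (Ioo_subset_Icc_self hτ)) _ (i2 τ (Ioo_subset_Icc_self hτ)) (by linarith [hτ.2])
  have cp : ∀ {k : ℝ → ℝ}, ContinuousOn k (Icc 0 L) →
      ContinuousOn (fun τ => k (X τ)) (Icc 0 (1 / 2)) := fun hk =>
    hk.comp (x2.mono i1) fun τ hτ => (x1 τ (i1 τ hτ)).1
  have cq : ∀ {k : ℝ → ℝ}, ContinuousOn k (Icc 0 L) →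
      ContinuousOn (fun τ => k (X (1 - τ))) (Icc 0 (1 / 2)) := fun hk =>
    hk.comp (x2.comp (by fun_prop) i2) fun τ hτ => (x1 _ (i2 τ hτ)).1
  have dp : ∀ {k k' : ℝ → ℝ}, (∀ x ∈ Ioo 0 L, HasDerivAt k (k' x) x) → ∀ τ ∈ Ioo (0 : ℝ) (1 / 2),
      HasDerivAt (fun τ => k (X τ)) (k' (X τ) / u (X τ) ^ 2) τ := fun hk τ hτ =>
    (hk _ (j1 τ (o τ hτ))).comp τ (x6 τ ⟨hτ.1, by linarith [hτ.2]⟩).2
  have dq : ∀ {k k' : ℝ → ℝ}, (∀ x ∈ Ioo 0 L, HasDerivAt k (k' x) x) → ∀ τ ∈ Ioo (0 : ℝ) (1 / 2),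
      HasDerivAt (fun τ => k (X (1 - τ))) (-(k' (X (1 - τ)) / u (X (1 - τ)) ^ 2)) τ :=
    fun hk τ hτ => hd_refl (f := fun τ => _) ((hk _ (j2 τ (o τ hτ))).comp (1 - τ)
      (x6 _ ⟨by linarith [hτ.2], by linarith [hτ.1]⟩).2)
  have e0 : (1 : ℝ) - 1 / 2 = 1 / 2 := by norm_num
  have du := fun x (hx : x ∈ Ioo 0 L) => (h.hu x (Ioo_subset_Icc_self hx)).1
  have du' := fun x (hx : x ∈ Ioo 0 L) => (h.hu x (Ioo_subset_Icc_self hx)).2
  have K : ∀ τ ∈ Icc (0 : ℝ) (1 / 2), u (X (1 - τ)) ≤ u (X τ) := by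
    have cΔ := ((cp h.hu.cont).fun_pow 3).fun_sub ((cq h.hu.cont).fun_pow 3)
    have dΔ : ∀ τ ∈ Ioo (0 : ℝ) (1 / 2), HasDerivAt (fun τ => u (X τ) ^ 3 - u (X (1 - τ)) ^ 3)
        (3 * (u' (X τ) + u' (X (1 - τ)))) τ := fun τ hτ => by
      have q1 := (h.hp _ (j1 τ (o τ hτ))).ne'
      have q2 := (h.hp _ (j2 τ (o τ hτ))).ne'
      refine (((dp du τ hτ).fun_pow 3).fun_sub ((dq du τ hτ).fun_pow 3)).congr_deriv ?_
      simp only [Nat.cast_ofNat, Nat.add_one_sub_one]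
      field_simp
      ring
    obtain ⟨s, hs, smin⟩ := isCompact_Icc.exists_isMinOn (nonempty_Icc.2 (by norm_num)) cΔ
    have key : 0 ≤ u (X s) ^ 3 - u (X (1 - s)) ^ 3 := not_lt.1 fun hn => by
      have ms : s ∈ Ioo (0 : ℝ) (1 / 2) :=
        ⟨hs.1.lt_of_ne (by rintro rfl; simp [x4, x5, h.u0, h.uL] at hn),
          hs.2.lt_of_ne (by rintro rfl; rw [e0] at hn; simp at hn)⟩
      have n0 := (smin.isLocalMin (Icc_mem_nhds ms.1 ms.2)).hasDerivAt_eq_zero (dΔ s ms)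
      obtain ⟨t, t1, t2, t3, t4⟩ := first_le (f := fun τ => -(u (X τ) ^ 3 - u (X (1 - τ)) ^ 3))
        hs.2 (cΔ.mono (Icc_subset_Icc_left hs.1)).fun_neg (by simp only [e0]; simp) (by linarith)
      have := ogt t1 (cΔ.mono (Icc_subset_Icc hs.1 t2))
        (fun τ hτ => dΔ τ ⟨ms.1.trans hτ.1, hτ.2.trans_le t2⟩) fun τ hτ => by
          have := ogt hτ.1 (((cp h.hu.cont').fun_add (cq h.hu.cont')).mono
            (Icc_subset_Icc hs.1 (hτ.2.le.trans t2))) (fun v hv =>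
              have mv : v ∈ Ioo (0 : ℝ) (1 / 2) := ⟨ms.1.trans hv.1, hv.2.trans (hτ.2.trans_le t2)⟩
              (dp du' v mv).fun_add (dq du' v mv)) fun v hv => by
            have mv : v ∈ Ioo (0 : ℝ) (1 / 2) := ⟨ms.1.trans hv.1, hv.2.trans (hτ.2.trans_le t2)⟩
            have q1 := j1 v (o v mv)
            have q2 := j2 v (o v mv)
            have := h.allowed hm q1.1 (pq v mv) q2.2 (lt_of_pow_lt_pow_left₀ 3 (h.hp _ q2).le
              (by linarith [t4 v ⟨hv.1.le, hv.2.trans hτ.2⟩]))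
            rw [sq, sq, mul_div_mul_right _ _ (h.hp _ q1).ne', mul_div_mul_right _ _ (h.hp _ q2).ne']
            linarith
          linarith
      linarith
    intro τ hτ
    have := key.trans (smin hτ)
    exact le_of_pow_le_pow_left₀ three_ne_zero (h.un (x1 τ (i1 τ hτ)).1) (by linarith)
  obtain ⟨P, eP⟩ : ∃ P : ℝ → ℝ, P = fun x => y' x * u x - y x * u' x := ⟨_, rfl⟩
  have cP : ContinuousOn P (Icc 0 L) := eP ▸ dcont fun x hx => h.hP hx
  have P0 : P 0 = 0 := by simp [eP, h.u0, h.y0]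
  have PL : P L = 0 := by simp [eP, h.uL, h.yL]
  have Pp : ∀ x ∈ Ioo 0 L, 0 < P x := fun x hx => eP ▸ h.Ppos hx
  have ey : ∀ x ∈ Ioo 0 L, y x = f x * u x := fun x hx => by
    rw [ef x hx, div_mul_cancel₀ _ (h.hp x hx).ne']
  have dP : ∀ x ∈ Ioo 0 L, HasDerivAt P (-((b - a) * f x) * u x ^ 2) x := fun x hx =>
    eP ▸ (h.hP (Ioo_subset_Icc_self hx)).congr_deriv (by rw [ey x hx]; ring)
  have df : ∀ x ∈ Ioo 0 L, HasDerivAt f (P x / u x ^ 2) x := fun x hx =>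
    eP ▸ (h.hf hx).congr_of_eventuallyEq (by
      filter_upwards [isOpen_Ioo.mem_nhds hx] with v hv using ef v hv)
  have dE : ∀ x ∈ Ioo 0 L, HasDerivAt E (f x ^ 2 * u x ^ 2) x := fun x hx =>
    (h.hE x (Ioo_subset_Icc_self hx)).congr_deriv (by rw [ey x hx]; ring)
  have Ω : ∀ τ ∈ Ioo (0 : ℝ) (1 / 2), P (X τ) * f (X (1 - τ)) + P (X (1 - τ)) * f (X τ) ≤ 0 :=
    fun τ hτ => by
      have := oge (f := fun τ => P (X τ) * f (X (1 - τ)) + P (X (1 - τ)) * f (X τ))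
        (f' := fun τ => P (X τ) * P (X (1 - τ)) * (1 / u (X τ) ^ 4 - 1 / u (X (1 - τ)) ^ 4)) hτ.1.le
        ((((cp cP).fun_mul (cq cf)).fun_add ((cq cP).fun_mul (cp cf))).mono
          (Icc_subset_Icc_right hτ.2.le)) (fun v hv => by
          have mv : v ∈ Ioo (0 : ℝ) (1 / 2) := ⟨hv.1, hv.2.trans hτ.2⟩
          have q1 := (h.hp _ (j1 v (o v mv))).ne'
          have q2 := (h.hp _ (j2 v (o v mv))).ne'
          refine (((dp dP v mv).fun_mul (dq df v mv)).fun_add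
            ((dq dP v mv).fun_mul (dp df v mv))).congr_deriv ?_
          field_simp
          ring) fun v hv => by
          have mv : v ∈ Ioo (0 : ℝ) (1 / 2) := ⟨hv.1, hv.2.trans hτ.2⟩
          have q2 := h.hp _ (j2 v (o v mv))
          exact mul_nonpos_of_nonneg_of_nonpos
            (mul_pos (Pp _ (j1 v (o v mv))) (Pp _ (j2 v (o v mv)))).le
            (sub_nonpos.2 (one_div_le_one_div_of_le (pow_pos q2 4)
              (pow_le_pow_left₀ q2.le (K v (Ioo_subset_Icc_self mv)) 4)))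
      simpa [x4, x5, P0, PL] using this
  have PP : ∀ τ ∈ Ioo (0 : ℝ) (1 / 2), P (X τ) ≤ P (X (1 - τ)) := fun τ hτ => by
    have := ole (f := fun τ => P (X τ) / P (X (1 - τ)))
      (f' := fun τ => -((b - a) * (P (X τ) * f (X (1 - τ)) + P (X (1 - τ)) * f (X τ)))
        / P (X (1 - τ)) ^ 2) hτ.2.le
      (((cp cP).mono (Icc_subset_Icc_left hτ.1.le)).div ((cq cP).mono (Icc_subset_Icc_left hτ.1.le))
        fun v hv => (Pp _ (j2 v ⟨hτ.1.trans_le hv.1, hv.2⟩)).ne') (fun v hv => by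
        have mv : v ∈ Ioo (0 : ℝ) (1 / 2) := ⟨hτ.1.trans hv.1, hv.2⟩
        have q1 := (h.hp _ (j1 v (o v mv))).ne'
        have q2 := (h.hp _ (j2 v (o v mv))).ne'
        have q3 := (Pp _ (j2 v (o v mv))).ne'
        refine ((dp dP v mv).fun_div (dq dP v mv) q3).congr_deriv ?_
        field_simp
        ring) fun v hv => div_nonneg (neg_nonneg.2 (mul_nonpos_of_nonneg_of_nonpos g0.le
          (Ω v ⟨hτ.1.trans hv.1, hv.2⟩))) (sq_nonneg _)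
    simp only [e0, div_self (Pp _ (j1 _ ⟨one_half_pos, le_rfl⟩)).ne'] at this
    exact (div_le_one (Pp _ (j2 τ (o τ hτ)))).1 this
  have Q : ∀ τ ∈ Ioo (0 : ℝ) (1 / 2), E (X τ) + E (X (1 - τ)) - 1 ≤ 0 := fun τ hτ => by
    have cE := dcont h.hE
    have := oge (f := fun τ => (b - a) * (E (X τ) + E (X (1 - τ)))
        - (P (X (1 - τ)) - P (X τ)) * (f (X τ) - f (X (1 - τ))))
      (f' := fun τ => -((P (X (1 - τ)) - P (X τ)) *
        (P (X τ) / u (X τ) ^ 4 + P (X (1 - τ)) / u (X (1 - τ)) ^ 4))) hτ.1.le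
      (((continuousOn_const.fun_mul ((cp cE).fun_add (cq cE))).fun_sub
        (((cq cP).fun_sub (cp cP)).fun_mul ((cp cf).fun_sub (cq cf)))).mono
        (Icc_subset_Icc_right hτ.2.le)) (fun v hv => by
        have mv : v ∈ Ioo (0 : ℝ) (1 / 2) := ⟨hv.1, hv.2.trans hτ.2⟩
        have q1 := (h.hp _ (j1 v (o v mv))).ne'
        have q2 := (h.hp _ (j2 v (o v mv))).ne'
        refine ((((dp dE v mv).fun_add (dq dE v mv)).const_mul (b - a)).fun_sub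
          (((dq dP v mv).fun_sub (dp dP v mv)).fun_mul
            ((dp df v mv).fun_sub (dq df v mv)))).congr_deriv ?_
        field_simp
        ring) fun v hv => by
        have mv : v ∈ Ioo (0 : ℝ) (1 / 2) := ⟨hv.1, hv.2.trans hτ.2⟩
        have q1 := Pp _ (j1 v (o v mv))
        have q2 := Pp _ (j2 v (o v mv))
        exact neg_nonpos.2 (mul_nonneg (sub_nonneg.2 (PP v mv)) (by positivity))
    simp only [x4, x5, sub_zero, P0, PL, h.E0, h.EL] at this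
    have q1 := j1 τ (o τ hτ)
    have q2 := j2 τ (o τ hτ)
    have q3 := h.flt q1.1 (pq τ hτ) q2.2
    rw [← ef _ q1, ← ef _ q2] at q3
    exact le_of_mul_le_mul_left
      (by nlinarith [mul_nonneg (sub_nonneg.2 (PP τ hτ)) (sub_nonneg.2 q3.le)]) g0
  have dH := fun x (hx : x ∈ Ioo 0 L) => hH x (Ioo_subset_Icc_self hx)
  have := oge one_half_pos.le ((cp (dcont hH)).fun_sub (cq (dcont hH)))
    (fun τ hτ => (dp dH τ hτ).fun_sub (dq dH τ hτ)) fun τ hτ => by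
      have m := Ioo_subset_Icc_self hτ
      have q1 := j1 τ (o τ hτ)
      have q2 := j2 τ (o τ hτ)
      have q3 := Q τ hτ
      have f1 := (x1 _ (i1 τ m)).2
      have f2 := (x1 _ (i2 τ m)).2
      have q4 : E (X (1 - τ)) - F (X (1 - τ)) ≤ 0 := not_lt.1 fun g => by
        linarith [not_le.1 fun g' => absurd (hc _ _ q1.1 (pq τ hτ) q2.2 g') (not_lt.2 g.le)]
      have q5 := div_le_div_of_nonneg_left (neg_nonneg.2 q4) (pow_pos (h.hp _ q2) 2)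
        (pow_le_pow_left₀ (h.hp _ q2).le (K τ m) 2)
      have q6 := div_le_div_of_nonneg_right
        (show E (X τ) - F (X τ) ≤ -(E (X (1 - τ)) - F (X (1 - τ))) by linarith)
        (sq_nonneg (u (X τ)))
      rw [neg_div (u (X (1 - τ)) ^ 2)] at q5
      linarith
  simp only [e0, sub_self, sub_zero, x4, x5] at this
  linarith

end Two

end Pool.Agent.Lib.MP_6547d0_mp.G
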