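import Pool.Agent.Lib.MP_6547d0_mp.R.Two

/-! Beyond the median the ground state density lies above its mean over the rest. -/

set_option autoImplicit false

namespace Pool.Agent.Lib.MP_6547d0_mp.G

open Set Filter Topology Real MeasureTheory intervalIntegral

namespace Two

variable {L a b z : ℝ} {V u u' y y' F E : ℝ → ℝ} (h : Two L a b z V u u' y y' F E)
include h

theorem wm (he : ∀ x ∈ Icc 0 L, 0 ≤ u' x ^ 2 + (a - V x) * u x ^ 2) {s t : ℝ} (h1 : 0 < s)
    (h2 : s ≤ t) (h3 : t < L) : u' t * u s ≤ u' s * u t := by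
  have := wmono (κ := 0) h2 (h.hu.mono h1.le h3.le)
    (fun x hx => h.hp x ⟨h1.trans_le hx.1, hx.2.trans_lt h3⟩)
    fun x hx => by linarith [he x ⟨h1.le.trans hx.1, hx.2.trans h3.le⟩]
  rw [zero_mul, add_zero, div_le_div_iff₀ (h.hp s ⟨h1, h2.trans_lt h3⟩)
    (h.hp t ⟨h1.trans_le h2, h3⟩)] at this
  linarith

theorem dn (he : ∀ x ∈ Icc 0 L, 0 ≤ u' x ^ 2 + (a - V x) * u x ^ 2) {s t : ℝ} (h1 : 0 < s)
    (h2 : s ≤ t) (h3 : t < L) (h4 : u' s ≤ 0) : u' t ≤ 0 := by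
  have := h.wm he h1 h2 h3
  have g := mul_nonneg (neg_nonneg.2 h4) (h.hp t ⟨h1.trans_le h2, h3⟩).le
  exact le_of_mul_le_mul_right (by linarith) (h.hp s ⟨h1, h2.trans_lt h3⟩)

theorem up (he : ∀ x ∈ Icc 0 L, 0 ≤ u' x ^ 2 + (a - V x) * u x ^ 2) {s t : ℝ} (h1 : 0 < s)
    (h2 : s ≤ t) (h3 : t < L) (h4 : 0 ≤ u' t) : 0 ≤ u' s := by
  have := h.wm he h1 h2 h3
  have g := mul_nonneg h4 (h.hp s ⟨h1, h2.trans_lt h3⟩).le
  exact le_of_mul_le_mul_right (by linarith) (h.hp t ⟨h1.trans_le h2, h3⟩)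

theorem top : ∃ m ∈ Ioo 0 L, u' m = 0 ∧ ∀ x ∈ Icc 0 L, u x ≤ u m := by
  obtain ⟨m, hm, hmax⟩ := isCompact_Icc.exists_isMaxOn (nonempty_Icc.2 h.hL.le) h.hu.cont
  have p : 0 < u m := (h.hp z h.hz).trans_le (hmax (Ioo_subset_Icc_self h.hz))
  have m' : m ∈ Ioo 0 L := ⟨hm.1.lt_of_ne (by rintro rfl; linarith [h.u0]),
    hm.2.lt_of_ne (by rintro rfl; linarith [h.uL])⟩
  exact ⟨m, m', (hmax.isLocalMax (Icc_mem_nhds m'.1 m'.2)).hasDerivAt_eq_zero (h.hu m hm).1, hmax⟩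

theorem lam0 (he : ∀ x ∈ Icc 0 L, 0 ≤ u' x ^ 2 + (a - V x) * u x ^ 2) {x : ℝ} (hx : x ∈ Ioo 0 L)
    (h1 : u' x ≤ 0) : 1 - F x ≤ (L - x) * u x ^ 2 := by
  have := le_of_der_nonneg (f := fun t => u x ^ 2 * t - F t) hx.2.le
    (fun t ht => ((hasDerivAt_id' t).const_mul _).fun_sub (h.hF t ⟨hx.1.le.trans ht.1, ht.2⟩))
    fun t ht => by
      have g := dge ht.1.le (fun s hs => (h.hu s ⟨hx.1.le.trans hs.1, hs.2.trans ht.2.le⟩).1)
        fun s hs => h.dn he hx.1 hs.1.le (hs.2.trans ht.2) h1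
      have := pow_le_pow_left₀ (h.hp t ⟨hx.1.trans ht.1, ht.2⟩).le g 2
      linarith
  simp only [h.FL] at this
  linarith

theorem hK (x : ℝ) {t : ℝ} (ht : t ∈ Icc 0 L) :
    HasDerivAt (fun t => u x * u t ^ 2 - 2 * u' x * F t) (2 * u t * (u' t * u x - u' x * u t)) t := by
  refine ((((h.hu t ht).1.fun_pow 2).const_mul _).fun_sub ((h.hF t ht).const_mul _)).congr_deriv ?_
  simp only [Nat.cast_ofNat, Nat.add_one_sub_one, pow_one]
  ring

theorem en2 {r : ℝ → ℝ} (hr : Monotone r)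
    (hd : ∀ x ∈ Ioo 0 L, HasDerivWithinAt V (r x) (Ioi x) x) {x : ℝ} (hx : x ∈ Icc 0 L)
    (h1 : 1 / 2 ≤ F x) {t : ℝ} (ht : t ∈ Icc x L) :
    u' t ^ 2 + (a - V t) * u t ^ 2 ≤ 2 * (u' x ^ 2 + (a - V x) * u x ^ 2) := by
  have c := (cont_en h.hu h.cV).fun_add ((continuousOn_const (c := r x)).fun_mul (dcont h.hF))
  have d := fun t ht => (der_en h.hu ht (hd t ht)).fun_add
    ((h.hF t (Ioo_subset_Icc_self ht)).const_mul (r x)).hasDerivWithinAt
  have g1 := rle hx.1 (c.mono (Icc_subset_Icc_right hx.2))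
    (fun s hs => d s ⟨hs.1, hs.2.trans_le hx.2⟩)
    fun s hs => by nlinarith [hr hs.2.le, sq_nonneg (u s)]
  have g2 := rle ht.1 (c.mono (Icc_subset_Icc hx.1 ht.2)).fun_neg
    (fun s hs => (d s ⟨hx.1.trans_lt hs.1, hs.2.trans_le ht.2⟩).fun_neg)
    fun s hs => by nlinarith [hr hs.1.le, sq_nonneg (u s)]
  have g3 := energy h.cV hr hd h.hu h.u0 h.uL x hx
  have g4 := h.Fle hx.1 ht.1 ht.2
  have g5 := h.Fle (hx.1.trans ht.1) ht.2 le_rfl
  simp only [h.u0, h.F0, h.FL] at g1 g5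
  rcases le_total 0 (r x) with g | g
  · nlinarith [mul_nonneg g (sub_nonneg.2 g4)]
  · nlinarith [mul_nonneg (neg_nonneg.2 g) (show 0 ≤ 2 * F x - F t by linarith), sq_nonneg (u' 0)]

theorem star {r : ℝ → ℝ} (hV : ConvexOn ℝ (Icc 0 L) V) (hr : Monotone r)
    (hd : ∀ x ∈ Ioo 0 L, HasDerivWithinAt V (r x) (Ioi x) x) {x : ℝ} (hx : x ∈ Ioo 0 L)
    (h1 : 1 / 2 ≤ F x) : 1 - F x ≤ (L - x) * u x ^ 2 := by
  have he := energy h.cV hr hd h.hu h.u0 h.uL
  rcases le_or_gt (u' x) 0 with p1 | p1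
  · exact h.lam0 he hx p1
  have p0 := h.hp x hx
  have x' := Ioo_subset_Icc_self hx
  have i : ∀ {s t}, t ≤ L → s ∈ Icc x t → s ∈ Icc 0 L := fun g hs =>
    ⟨hx.1.le.trans hs.1, hs.2.trans g⟩
  have A := le_of_der_nonneg hx.1.le (fun t ht => h.hK x ⟨ht.1, ht.2.trans hx.2.le⟩) fun t ht =>
    mul_nonneg (by linarith [h.hp t ⟨ht.1, ht.2.trans hx.2⟩])
      (sub_nonneg.2 (h.wm he ht.1 ht.2.le hx.2))
  simp only [h.u0, h.F0] at A
  have B : ∀ t ∈ Icc x L, u x * u t ^ 2 ≤ u x ^ 3 + 2 * u' x * (F t - F x) := fun t ht => by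
    have := dge ht.1 (fun s hs => h.hK x (i ht.2 hs)) fun s hs =>
      mul_nonpos_of_nonneg_of_nonpos
        (by linarith [h.hp s ⟨hx.1.trans hs.1, hs.2.trans_le ht.2⟩])
        (sub_nonpos.2 (h.wm he hx.1 hs.1.le (hs.2.trans_le ht.2)))
    linarith
  have B2 : ∀ t ∈ Icc x L, 0 ≤ F t - F x ∧ 2 * u' x * (F t - F x) ≤ u x ^ 3 := fun t ht => by
    have g4 := h.Fle hx.1.le ht.1 ht.2
    have g5 := h.Fle (hx.1.le.trans ht.1) ht.2 le_rfl
    rw [h.FL] at g5
    exact ⟨by linarith, by nlinarith⟩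
  obtain ⟨m, mm, m0, hm⟩ := h.top
  have xm : x < m := not_le.1 fun g => by linarith [h.dn he mm.1 g hx.2 m0.le]
  have km : V m ≤ a := by
    have := he m (Ioo_subset_Icc_self mm)
    rw [m0] at this
    nlinarith [pow_pos (h.hp m mm) 2]
  have D : ∀ t ∈ Ioo m L, u' t ^ 2 ≤ 2 * (u' x ^ 2 + (a - V x) * u x ^ 2) := fun t ht => by
    rcases le_or_gt (V t) a with g | g
    · nlinarith [h.en2 hr hd x' h1 ⟨(xm.trans ht.1).le, ht.2.le⟩,
        mul_nonneg (sub_nonneg.2 g) (sq_nonneg (u t))]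
    obtain ⟨p, q1, q2, q3, q4⟩ := last_le (f := fun s => V s - a) ht.1.le
      ((h.cV.mono (Icc_subset_Icc mm.1.le ht.2.le)).sub continuousOn_const) (by linarith)
      (by linarith)
    have g1 := le_of_der_nonneg q2.le
      (fun s hs => (h.hu s ⟨(mm.1.le.trans q1).trans hs.1, hs.2.trans ht.2.le⟩).2) fun s hs =>
        mul_nonneg (q4 s ⟨hs.1, hs.2.le⟩).le
          (h.hp s ⟨(mm.1.trans_le q1).trans hs.1, hs.2.trans ht.2⟩).le
    have g2 := h.dn he mm.1 ht.1.le ht.2 m0.le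
    have g3 := h.en2 hr hd x' h1 ⟨xm.le.trans q1, (q2.trans ht.2).le⟩
    rw [show a - V p = 0 by linarith] at g3
    nlinarith
  obtain ⟨e, e1, e2, e3, e4⟩ := last_le (f := fun t => u x - u t) mm.2.le
    (continuousOn_const.sub (h.hu.cont.mono (Icc_subset_Icc_left mm.1.le)))
    (by linarith [hm x x']) (by rw [h.uL]; linarith)
  have xe := xm.le.trans e1
  have Y : ∀ σ, 0 < σ → 2 * (u' x ^ 2 + (a - V x) * u x ^ 2) ≤ σ ^ 2 →
      2 / 3 * u x ^ 3 ≤ σ * (u x ^ 2 * (L - e) - (1 - F e)) := fun σ s0 s1 => by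
    have := le_of_der_nonneg (f := fun t => σ * (u x ^ 2 * t - F t) + (u x ^ 2 * u t - u t ^ 3 / 3))
      (f' := fun t => (u x ^ 2 - u t ^ 2) * (σ + u' t)) e2.le (fun t ht => by
        have t' : t ∈ Icc 0 L := ⟨(hx.1.le.trans xe).trans ht.1, ht.2⟩
        refine (((((hasDerivAt_id' t).const_mul _).fun_sub (h.hF t t')).const_mul σ).fun_add
          (((h.hu t t').1.const_mul _).fun_sub
            (((h.hu t t').1.fun_pow 3).div_const 3))).congr_deriv ?_
        simp only [Nat.cast_ofNat, Nat.add_one_sub_one]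
        ring) fun t ht => by
        have g1 := e4 t ⟨ht.1, ht.2.le⟩
        have g2 := h.hp t ⟨(hx.1.trans_le xe).trans ht.1, ht.2⟩
        have g3 := abs_le_of_sq_le_sq' ((D t ⟨e1.trans_lt ht.1, ht.2⟩).trans s1) s0.le
        exact mul_nonneg (by nlinarith) (by linarith [g3.1])
    simp only [h.uL, h.FL, show u e = u x by linarith] at this
    linarith
  obtain ⟨τ0, τ1⟩ := B2 e ⟨xe, e2.le⟩
  rcases le_total ((a - V x) * u x ^ 2) (7 * u' x ^ 2) with k1 | k1
  · have y1 := Y (4 * u' x) (by linarith) (by linarith)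
    have := dge (f := fun t => 9 * u x ^ 3 * (F t - u x ^ 2 * t) - u x ^ 3 * (F t - F x)
        - 4 * u' x * (F t - F x) ^ 2)
      (f' := fun t => u t ^ 2 * (8 * u x ^ 3 - 4 * (2 * u' x * (F t - F x))) - 9 * u x ^ 5) xe
      (fun t ht => by
        have g := h.hF t (i e2.le ht)
        refine ((((g.fun_sub ((hasDerivAt_id' t).const_mul _)).const_mul _).fun_sub
          ((g.sub_const _).const_mul _)).fun_sub
          (((g.sub_const _).fun_pow 2).const_mul _)).congr_deriv ?_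
        simp only [Nat.cast_ofNat, Nat.add_one_sub_one, pow_one]
        ring) fun t ht => by
        have t' : t ∈ Icc x L := ⟨ht.1.le, (ht.2.trans e2).le⟩
        have g1 := mul_le_mul_of_nonneg_right (B t t')
          (show 0 ≤ 8 * u x ^ 3 - 4 * (2 * u' x * (F t - F x)) by
            linarith [(B2 t t').2, pow_pos p0 3])
        exact le_of_mul_le_mul_left
          (by nlinarith [sq_nonneg (u x ^ 3 - 2 * (2 * u' x * (F t - F x)))]) p0
    have s0 := mul_nonneg (show 0 ≤ 2 * u' x by linarith) τ0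
    have g1 := mul_le_mul_of_nonneg_left this (show 0 ≤ 2 * u' x by linarith)
    have g2 : u x ^ 3 * (6 * u' x * (F e - F x - u x ^ 2 * (e - x))) ≤ u x ^ 3 * u x ^ 3 := by
      nlinarith [mul_le_mul τ1 τ1 s0 (pow_pos p0 3).le,
        mul_le_mul_of_nonneg_left τ1 (pow_pos p0 3).le]
    have g3 := le_of_mul_le_mul_left g2 (pow_pos p0 3)
    exact le_of_mul_le_mul_left (by linarith) p1
  obtain ⟨k, ek⟩ : ∃ k, k = a - V x := ⟨_, rfl⟩
  rw [← ek] at Y k1
  have k0 : 0 < k := pos_of_mul_pos_of_pos_right' (by nlinarith [pow_pos p1 2]) (pow_pos p0 2)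
  have l0 := sub_pos.2 xm
  have U1 : ∀ t ∈ Icc x m, (m - x) * u' t + k * u x * ((m - x) * (t - x) - (t - x) ^ 2 / 2)
      ≤ (m - x) * u' x := fun t ht => by
    have := dge (f := fun t => (m - x) * u' t + k * u x * ((m - x) * (t - x) - (t - x) ^ 2 / 2))
      (f' := fun t => (m - x) * ((V t - a) * u t) + k * u x * (m - t)) ht.1 (fun s hs => by
        have g := (hasDerivAt_id' s).sub_const x
        refine (((h.hu s (i (ht.2.trans mm.2.le) hs)).2.const_mul _).fun_add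
          (((g.const_mul _).fun_sub ((g.fun_pow 2).div_const 2)).const_mul _)).congr_deriv ?_
        simp only [Nat.cast_ofNat, Nat.add_one_sub_one, pow_one]
        ring) fun s hs => by
        have sm := hs.2.trans_le ht.2
        have g1 := le_of_der_nonneg hs.1.le (fun v hv => (h.hu v (i (sm.trans mm.2).le hv)).1)
          fun v hv => h.up he (hx.1.trans hv.1) (hv.2.trans sm).le mm.2 m0.ge
        have g2 := hV.secant_mono_aux1 x' (Ioo_subset_Icc_self mm) hs.1 sm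
        have g3 : k * (m - s) ≤ (m - x) * (a - V s) := by
          nlinarith [mul_nonneg (sub_pos.2 hs.1).le (sub_nonneg.2 km)]
        have g4 := mul_le_mul g3 g1 p0.le ((mul_pos k0 (sub_pos.2 sm)).le.trans g3)
        linarith
    simpa using this
  have U2 := dge (f := fun t => (m - x) * u t - (m - x) * u' x * (t - x)
      + k * u x * ((m - x) * (t - x) ^ 2 / 2 - (t - x) ^ 3 / 6))
    (f' := fun t => (m - x) * u' t + k * u x * ((m - x) * (t - x) - (t - x) ^ 2 / 2)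
      - (m - x) * u' x) xm.le (fun s hs => by
        have g := (hasDerivAt_id' s).sub_const x
        refine ((((h.hu s (i mm.2.le hs)).1.const_mul _).fun_sub (g.const_mul _)).fun_add
          (((((g.fun_pow 2).const_mul _).div_const 2).fun_sub
            ((g.fun_pow 3).div_const 6)).const_mul _)).congr_deriv ?_
        simp only [Nat.cast_ofNat, Nat.add_one_sub_one, pow_one]
        ring) fun s hs => sub_nonpos.2 (U1 s (Ioo_subset_Icc_self hs))
  have U3 : u m - u x ≤ (m - x) * u' x - k * u x * (m - x) ^ 2 / 3 :=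
    le_of_mul_le_mul_left (by linarith) l0
  obtain ⟨s, s0, es⟩ : ∃ s, 0 < s ∧ s * (k * u x ^ 2) = u' x ^ 2 :=
    ⟨u' x ^ 2 / (k * u x ^ 2), by positivity, by field_simp⟩
  have ku := mul_pos k0 p0
  have s1 : s ≤ 1 / 7 := le_of_mul_le_mul_right (by linarith) (mul_pos k0 (pow_pos p0 2))
  have U4 : u m ≤ u x * (1 + s) := le_of_mul_le_mul_left (by
    nlinarith [mul_le_mul_of_nonneg_left U3 ku.le,
      sq_nonneg (2 * (k * u x * (m - x)) - 3 * u' x), sq_nonneg (u' x)]) ku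
  have X := dge (f := fun t => (1 - 2 * s) * F t - u x ^ 2 * t) xe
    (fun t ht => ((h.hF t (i e2.le ht)).const_mul _).fun_sub ((hasDerivAt_id' t).const_mul _))
    fun t ht => by
      have t' := i e2.le (Ioo_subset_Icc_self ht)
      have g1 := pow_le_pow_left₀ (h.un t') ((hm t t').trans U4) 2
      have g2 := mul_le_mul_of_nonneg_left g1 (show 0 ≤ 1 - 2 * s by linarith)
      nlinarith [mul_pos (pow_pos p0 2) (pow_pos s0 2), mul_pos (pow_pos p0 2) (pow_pos s0 3)]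
  have y1 := Y (2 * u' x / (3 * s)) (by positivity) (by
    rw [div_pow, le_div_iff₀ (by positivity)]
    nlinarith [mul_nonneg (pow_pos p1 2).le (mul_nonneg s0.le (sub_nonneg.2 s1)),
      mul_nonneg (pow_pos p1 2).le (sub_nonneg.2 s1), mul_pos s0 (pow_pos p1 2)])
  rw [div_mul_eq_mul_div (2 * u' x), le_div_iff₀ (by positivity)] at y1
  exact le_of_mul_le_mul_left (by
    nlinarith [mul_le_mul_of_nonneg_left τ1 s0.le, mul_le_mul_of_nonneg_left X p1.le]) p1
where pos_of_mul_pos_of_pos_right' {x y : ℝ} (h : 0 < x * y) (hy : 0 < y) : 0 < x :=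
  (mul_pos_iff_of_pos_right hy).1 h

end Two

end Pool.Agent.Lib.MP_6547d0_mp.G
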