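import Pool.Agent.Lib.MP_6547d0_mp.G.Main

/-! The first two eigenfunctions and their quotient. -/

set_option autoImplicit false

namespace Pool.Agent.Lib.MP_6547d0_mp.G

open Set Filter Topology Real MeasureTheory intervalIntegral

theorem dcont {f f' : ℝ → ℝ} {s : Set ℝ} (h : ∀ x ∈ s, HasDerivAt f (f' x) x) :
    ContinuousOn f s := fun x hx => (h x hx).continuousAt.continuousWithinAt

theorem ole {f f' : ℝ → ℝ} {a b : ℝ} (hab : a ≤ b) (hc : ContinuousOn f (Icc a b))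
    (hd : ∀ x ∈ Ioo a b, HasDerivAt f (f' x) x) (hp : ∀ x ∈ Ioo a b, 0 ≤ f' x) : f a ≤ f b :=
  rle hab hc (fun x hx => (hd x hx).hasDerivWithinAt) hp

theorem oge {f f' : ℝ → ℝ} {a b : ℝ} (hab : a ≤ b) (hc : ContinuousOn f (Icc a b))
    (hd : ∀ x ∈ Ioo a b, HasDerivAt f (f' x) x) (hp : ∀ x ∈ Ioo a b, f' x ≤ 0) : f b ≤ f a :=
  neg_le_neg_iff.1 (ole (f := fun x => -f x) hab hc.fun_neg (fun x hx => (hd x hx).fun_neg)
    fun x hx => neg_nonneg.2 (hp x hx))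

theorem olt {f f' : ℝ → ℝ} {a b : ℝ} (hab : a < b) (hc : ContinuousOn f (Icc a b))
    (hd : ∀ x ∈ Ioo a b, HasDerivAt f (f' x) x) (hp : ∀ x ∈ Ioo a b, 0 < f' x) : f a < f b :=
  have m : (a + b) / 2 ∈ Ioo a b := ⟨by linarith, by linarith⟩
  rlt hc (fun x hx => (hd x hx).hasDerivWithinAt) (fun x hx => (hp x hx).le) ⟨_, m, hp _ m⟩

theorem ogt {f f' : ℝ → ℝ} {a b : ℝ} (hab : a < b) (hc : ContinuousOn f (Icc a b))
    (hd : ∀ x ∈ Ioo a b, HasDerivAt f (f' x) x) (hp : ∀ x ∈ Ioo a b, f' x < 0) : f b < f a :=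
  neg_lt_neg_iff.1 (olt (f := fun x => -f x) hab hc.fun_neg (fun x hx => (hd x hx).fun_neg)
    fun x hx => neg_pos.2 (hp x hx))

theorem dge {f f' : ℝ → ℝ} {a b : ℝ} (hab : a ≤ b) (h : ∀ x ∈ Icc a b, HasDerivAt f (f' x) x)
    (hp : ∀ x ∈ Ioo a b, f' x ≤ 0) : f b ≤ f a :=
  oge hab (dcont h) (fun x hx => h x (Ioo_subset_Icc_self hx)) hp

theorem rmem {L x : ℝ} (hx : x ∈ Icc 0 L) : L - x ∈ Icc 0 L :=
  ⟨by linarith [hx.2], by linarith [hx.1]⟩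

theorem rmem' {L x : ℝ} (hx : x ∈ Ioo 0 L) : L - x ∈ Ioo 0 L :=
  ⟨by linarith [hx.2], by linarith [hx.1]⟩

theorem der_ne {q u u' : ℝ → ℝ} {a b x : ℝ} (hu : Sol q u u' a b) (hq : ContinuousOn q (Icc a b))
    (h : ∃ x ∈ Icc a b, u x ≠ 0) (hx : x ∈ Icc a b) (h0 : u x = 0) : u' x ≠ 0 := fun h1 => by
  obtain ⟨t, ht, h2⟩ := h
  rcases le_total x t with g | g
  · exact h2 (zero_right (hu.mono hx.1 le_rfl) (hq.mono (Icc_subset_Icc_left hx.1)) h0 h1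
      t ⟨g, ht.2⟩)
  · have := zero_right ((hu.mono le_rfl hx.2).refl 0)
      ((hq.mono (Icc_subset_Icc_right hx.2)).comp (by fun_prop) fun y hy =>
        ⟨by linarith [hy.2], by linarith [hy.1]⟩) (by simpa using h0) (by simpa using h1)
      (0 - t) ⟨by linarith, by linarith [ht.1]⟩
    exact h2 (by simpa using this)

theorem pos_of_nonneg {q u u' : ℝ → ℝ} {a b s t : ℝ} (hu : Sol q u u' a b)
    (hq : ContinuousOn q (Icc a b)) (h : ∃ x ∈ Icc a b, u x ≠ 0) (hs : a ≤ s) (ht : t ≤ b)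
    (hp : ∀ x ∈ Icc s t, 0 ≤ u x) : ∀ x ∈ Ioo s t, 0 < u x := fun x hx =>
  (hp x (Ioo_subset_Icc_self hx)).lt_of_ne' fun h0 => by
    have m : x ∈ Icc a b := ⟨hs.trans hx.1.le, hx.2.le.trans ht⟩
    refine der_ne hu hq h m h0 (IsLocalMin.hasDerivAt_eq_zero ?_ (hu x m).1)
    filter_upwards [Icc_mem_nhds hx.1 hx.2] with y hy using h0 ▸ hp y hy

theorem nth2 {V : ℝ → ℝ} {L b : ℝ} (hL : 0 < L) (hV : ContinuousOn V (Icc 0 L))
    (hb : IsNth L V 2 b) : ∃ (y y' : ℝ → ℝ) (z : ℝ), Sol (fun x => V x - b) y y' 0 L ∧ y 0 = 0 ∧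
      y L = 0 ∧ ∫ x in (0 : ℝ)..L, y x ^ 2 = 1 ∧ z ∈ Ioo 0 L ∧ (∀ x ∈ Ioo 0 z, y x < 0) ∧
      y z = 0 ∧ ∀ x ∈ Ioo z L, 0 < y x := by
  obtain ⟨K, hK⟩ := bd_spec hL hV
  obtain ⟨W, M, hW, e⟩ := hK K le_rfl
  obtain ⟨f, φ, h1, h2, h3⟩ := spec hW hL
  obtain ⟨i, hi2, hi⟩ := (h3 _ _).1 ((isNth_shift e _ _).2 hb)
  obtain rfl : i = 1 := by omega
  have hz := (h2 1).1
  obtain ⟨h0, hφ⟩ := h1 _ hz
  have hE : φ (f 1) L = 2 * π := by simpa using (h2 1).2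
  obtain ⟨ρ, hρ, hs⟩ := sol_of_ph hW hz hL hφ
  have hs' := hs.congr (p := fun x => V x - b) fun x hx => by rw [e x hx]; linarith
  have cq : ContinuousOn (fun x => V x - b) (Icc 0 L) := hV.sub continuousOn_const
  have nt := ne_of_der hL hs' ⟨le_rfl, hL.le⟩ (by simpa [h0] using ⟨hz.ne', (hρ 0).ne'⟩)
  obtain ⟨z, mz, ez⟩ := intermediate_value_Icc hL.le hφ.cont
    (show π ∈ Icc (φ (f 1) 0) (φ (f 1) L) by rw [h0, hE]; constructor <;> linarith [pi_pos])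
  have mz' : z ∈ Ioo 0 L := ⟨mz.1.lt_of_ne (by rintro rfl; linarith [pi_pos]),
    mz.2.lt_of_ne (by rintro rfl; linarith [pi_pos])⟩
  have hN := sq_int_pos hL hs' nt
  have hq := inv_pos.2 (Real.sqrt_pos.2 hN)
  have p1 := pos_of_nonneg hs' cq nt le_rfl mz.2 fun t ht => by
    have g1 := hφ.up hW hz 0 le_rfl ht.1 (ht.2.trans mz.2) (by simp [h0])
    have g2 := hφ.down hW hz 1 ht.1 ht.2 mz.2 (by simp [ez])
    exact mul_nonneg (hρ t).le
      (sin_nonneg_of_nonneg_of_le_pi (by simpa using g1) (by simpa using g2))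
  have p2 := pos_of_nonneg (hs'.smul (-1)) cq (by simpa using nt) mz.1 le_rfl fun t ht => by
    have g1 := hφ.up hW hz 1 mz.1 ht.1 ht.2 (by simp [ez])
    have g2 := hφ.down hW hz 2 (mz.1.trans ht.1) ht.2 le_rfl (by simp [hE])
    have := sin_nonneg_of_nonneg_of_le_pi (x := φ (f 1) t - π) (by simpa using g1)
      (by push_cast at g2; linarith)
    rw [sin_sub_pi] at this
    nlinarith [hρ t]
  refine ⟨_, _, z, hs'.smul (-(√(∫ x in (0 : ℝ)..L, (ρ x * sin (φ (f 1) x)) ^ 2))⁻¹), by simp [h0],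
    by simp [hE], ?_, mz', fun x hx => by nlinarith [p1 x hx], by simp [ez],
    fun x hx => by nlinarith [p2 x hx]⟩
  simp only [mul_pow _ (ρ _ * _), intervalIntegral.integral_const_mul, neg_sq, inv_pow,
    Real.sq_sqrt hN.le]
  exact inv_mul_cancel₀ hN.ne'

/-- the first two normalised eigenfunctions with their mass functions -/
structure Two (L a b z : ℝ) (V u u' y y' F E : ℝ → ℝ) : Prop where
  cV : ContinuousOn V (Icc 0 L)
  hu : Sol (fun x => V x - a) u u' 0 L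
  u0 : u 0 = 0
  uL : u L = 0
  hp : ∀ x ∈ Ioo 0 L, 0 < u x
  hy : Sol (fun x => V x - b) y y' 0 L
  y0 : y 0 = 0
  yL : y L = 0
  hab : a < b
  hz : z ∈ Ioo 0 L
  yn : ∀ x ∈ Ioo 0 z, y x < 0
  yz : y z = 0
  yp : ∀ x ∈ Ioo z L, 0 < y x
  hF : ∀ x ∈ Icc 0 L, HasDerivAt F (u x ^ 2) x
  F0 : F 0 = 0
  FL : F L = 1
  hE : ∀ x ∈ Icc 0 L, HasDerivAt E (y x ^ 2) x
  E0 : E 0 = 0
  EL : E L = 1

namespace Two

variable {L a b z : ℝ} {V u u' y y' F E : ℝ → ℝ} (h : Two L a b z V u u' y y' F E)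
include h

theorem hL : 0 < L := h.hz.1.trans h.hz.2

theorem refl : Two L a b (L - z) (fun x => V (L - x)) (fun x => u (L - x)) (fun x => -u' (L - x))
    (fun x => -1 * y (L - x)) (fun x => -1 * -y' (L - x)) (fun x => 1 - F (L - x))
    (fun x => 1 - E (L - x)) where
  cV := h.cV.comp (by fun_prop) fun _ => rmem
  hu := h.hu.refl0
  u0 := by simpa using h.uL
  uL := by simpa using h.u0
  hp := fun x hx => h.hp _ (rmem' hx)
  hy := h.hy.refl0.smul _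
  y0 := by simpa using h.yL
  yL := by simpa using h.y0
  hab := h.hab
  hz := rmem' h.hz
  yn := fun x hx => by simpa using h.yp (L - x) ⟨by linarith [hx.2], by linarith [hx.1]⟩
  yz := by simpa using h.yz
  yp := fun x hx => by simpa using h.yn (L - x) ⟨by linarith [hx.2], by linarith [hx.1]⟩
  hF := fun x hx => ((hd_refl (h.hF _ (rmem hx))).const_sub 1).congr_deriv (by ring)
  F0 := by simp [h.FL]
  FL := by simp [h.F0]
  hE := fun x hx => ((hd_refl (h.hE _ (rmem hx))).const_sub 1).congr_deriv (by ring)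
  E0 := by simp [h.EL]
  EL := by simp [h.E0]

theorem un {x : ℝ} (hx : x ∈ Icc 0 L) : 0 ≤ u x := by
  rcases hx.1.eq_or_lt with rfl | h1
  · exact h.u0.ge
  rcases hx.2.eq_or_lt with rfl | h2
  · exact h.uL.ge
  exact (h.hp x ⟨h1, h2⟩).le

theorem Flt {s t : ℝ} (h1 : 0 ≤ s) (h2 : s < t) (h3 : t ≤ L) : F s < F t :=
  lt_of_der_pos h2 (fun x hx => h.hF x ⟨h1.trans hx.1, hx.2.trans h3⟩) fun x hx =>
    pow_pos (h.hp x ⟨h1.trans_lt hx.1, hx.2.trans_le h3⟩) 2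

theorem Fle {s t : ℝ} (h1 : 0 ≤ s) (h2 : s ≤ t) (h3 : t ≤ L) : F s ≤ F t :=
  le_of_der_nonneg h2 (fun x hx => h.hF x ⟨h1.trans hx.1, hx.2.trans h3⟩) fun _ _ => sq_nonneg _

theorem hP {x : ℝ} (hx : x ∈ Icc 0 L) : HasDerivAt (fun x => y' x * u x - y x * u' x)
    (-((b - a) * (y x * u x))) x :=
  (((h.hy x hx).2.fun_mul (h.hu x hx).1).fun_sub
    ((h.hy x hx).1.fun_mul (h.hu x hx).2)).congr_deriv (by ring)

theorem Ppos {x : ℝ} (hx : x ∈ Ioo 0 L) : 0 < y' x * u x - y x * u' x := by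
  have g := sub_pos.2 h.hab
  rcases le_total x z with h1 | h1
  · have := lt_of_der_pos hx.1 (fun t ht => h.hP ⟨ht.1, ht.2.trans hx.2.le⟩) fun t ht =>
      neg_pos.2 (mul_neg_of_pos_of_neg g (mul_neg_of_neg_of_pos (h.yn t ⟨ht.1, ht.2.trans_le h1⟩)
        (h.hp t ⟨ht.1, ht.2.trans hx.2⟩)))
    simpa [h.u0, h.y0] using this
  · have := lt_of_der_pos hx.2 (fun t ht => (h.hP ⟨hx.1.le.trans ht.1, ht.2⟩).fun_neg) fun t ht =>
      neg_pos.2 (neg_neg_of_pos (mul_pos g (mul_pos (h.yp t ⟨h1.trans_lt ht.1, ht.2⟩)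
        (h.hp t ⟨hx.1.trans ht.1, ht.2⟩))))
    simp only [h.uL, h.yL] at this
    linarith

theorem hf {x : ℝ} (hx : x ∈ Ioo 0 L) : HasDerivAt (fun x => y x / u x)
    ((y' x * u x - y x * u' x) / u x ^ 2) x :=
  (h.hy x (Ioo_subset_Icc_self hx)).1.fun_div (h.hu x (Ioo_subset_Icc_self hx)).1 (h.hp x hx).ne'

theorem flt {s t : ℝ} (h1 : 0 < s) (h2 : s < t) (h3 : t < L) : y s / u s < y t / u t :=
  lt_of_der_pos h2 (fun _ hx => h.hf ⟨h1.trans_le hx.1, hx.2.trans_lt h3⟩) fun x hx =>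
    div_pos (h.Ppos ⟨h1.trans hx.1, hx.2.trans h3⟩) (pow_pos (h.hp x ⟨h1.trans hx.1, hx.2.trans h3⟩) 2)

theorem ud0 : 0 < u' 0 :=
  (der_ge (h.hu 0 ⟨le_rfl, h.hL.le⟩).1 h.hL fun t ht => by
    rw [h.u0]; exact (h.hp t ht).le).lt_of_ne' (der_ne h.hu (h.cV.sub continuousOn_const)
      ⟨z, Ioo_subset_Icc_self h.hz, (h.hp z h.hz).ne'⟩ ⟨le_rfl, h.hL.le⟩ h.u0)

theorem udL : u' L < 0 := by simpa using h.refl.ud0

theorem ratio : ∃ f : ℝ → ℝ, ContinuousOn f (Icc 0 L) ∧ ∀ x ∈ Ioo 0 L, f x = y x / u x := by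
  have hL := h.hL
  have c : ∀ {q w w' : ℝ → ℝ}, Sol q w w' 0 L → ∀ p,
      ContinuousOn (dslope w p) (Icc 0 L) := fun hw p x hx => by
    refine ContinuousAt.continuousWithinAt ?_
    rcases eq_or_ne x p with rfl | e
    · exact continuousAt_dslope_same.2 (hw x hx).1.differentiableAt
    · exact (continuousAt_dslope_of_ne e).2 (hw x hx).1.continuousAt
  have e : ∀ {w : ℝ → ℝ}, w 0 = 0 → w L = 0 → ∀ x ∈ Ioo 0 L,
      dslope w 0 x - dslope w L x = w x * (L / (x * (L - x))) := fun h0 h1 x hx => by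
    have g1 := hx.1.ne'
    have g2 := (sub_pos.2 hx.2).ne'
    have g3 := (sub_neg.2 hx.2).ne
    rw [dslope_of_ne _ g1, dslope_of_ne _ hx.2.ne, slope_def_field, slope_def_field, h0, h1]
    field_simp
    ring
  refine ⟨fun x => (dslope y 0 x - dslope y L x) / (dslope u 0 x - dslope u L x),
    ((c h.hy 0).sub (c h.hy L)).div ((c h.hu 0).sub (c h.hu L)) fun x hx => ?_, fun x hx => ?_⟩
  · rcases hx.1.eq_or_lt with rfl | h1
    · simp [dslope_of_ne _ hL.ne, slope_def_field, h.u0, h.uL, (h.hu 0 hx).1.deriv, h.ud0.ne']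
    rcases hx.2.eq_or_lt with rfl | h2
    · simp [dslope_of_ne _ hL.ne', slope_def_field, h.u0, h.uL, (h.hu _ hx).1.deriv, h.udL.ne]
    have := sub_pos.2 h2
    simp only [e h.u0 h.uL x ⟨h1, h2⟩]
    exact (mul_pos (h.hp x ⟨h1, h2⟩) (by positivity)).ne'
  · have g1 := hx.1
    have g2 := sub_pos.2 hx.2
    simp only [e h.u0 h.uL x hx, e h.y0 h.yL x hx]
    exact mul_div_mul_right _ _ (by positivity)

end Two

end Pool.Agent.Lib.MP_6547d0_mp.G
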